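import Mathlib

set_option autoImplicit false

namespace Pool.Agent.Helper74.KV

open Finset

/-- The point `s / q` of the circle. -/
noncomputable def pt (q s : ℕ) : UnitAddCircle := (((s : ℝ) / q : ℝ) : UnitAddCircle)

theorem pt_dist (q s q' s' : ℕ) : ‖pt q s - pt q' s'‖
    = |((s : ℝ) / q - (s' : ℝ) / q') - round ((s : ℝ) / q - (s' : ℝ) / q')| := by
  unfold pt
  rw [← AddCircle.coe_sub, UnitAddCircle.norm_eq]

/-- the number of distinct close pairs -/
theorem close_pairs (q q' : ℕ) (hq : 0 < q) (hq' : 0 < q') (Δ : ℝ) (hΔ : 0 ≤ Δ) :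
    ((((range q) ×ˢ (range q')).filter
      (fun x => pt q x.1 ≠ pt q' x.2 ∧ ‖pt q x.1 - pt q' x.2‖ ≤ Δ)).card : ℝ) ≤ 2 * Δ * q * q' := by
  obtain ⟨g, a, b, hg, hab, ha, hb⟩ := Nat.exists_coprime' (m := q) (n := q') (Nat.gcd_pos_of_pos_left _ hq)
  have hg0 : 0 < g := hg
  have ha0 : 0 < a := Nat.pos_of_ne_zero (by rintro rfl; simp at ha; omega)
  have hb0 : 0 < b := Nat.pos_of_ne_zero (by rintro rfl; simp at hb; omega)
  set H : ℕ := ⌊Δ * (g * a * b)⌋₊ with hH
  set f : ℕ × ℕ → ℤ := fun x => (x.1 : ℤ) * b - x.2 * a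
    - round ((x.1 : ℝ) / q - (x.2 : ℝ) / q') * (g * a * b) with hf
  have hfR : ∀ x : ℕ × ℕ, (f x : ℝ) = (((x.1 : ℝ) / q - (x.2 : ℝ) / q')
      - round ((x.1 : ℝ) / q - (x.2 : ℝ) / q')) * (g * a * b) := by
    intro x
    have haR : (a : ℝ) ≠ 0 := by exact_mod_cast ha0.ne'
    have hbR : (b : ℝ) ≠ 0 := by exact_mod_cast hb0.ne'
    have hgR : (g : ℝ) ≠ 0 := by exact_mod_cast hg0.ne'
    have h1 : (q : ℝ) = a * g := by rw [ha]; push_cast; ring
    have h2 : (q' : ℝ) = b * g := by rw [hb]; push_cast; ring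
    have h3 : ((x.1 : ℝ) / q - (x.2 : ℝ) / q') * (g * a * b) = x.1 * b - x.2 * a := by
      rw [h1, h2]; field_simp
    simp only [hf]
    push_cast
    rw [sub_mul, h3]
  have hgabpos : (0 : ℝ) < g * a * b := by positivity
  have hmaps : ∀ x ∈ ((range q) ×ˢ (range q')).filter
      (fun x => pt q x.1 ≠ pt q' x.2 ∧ ‖pt q x.1 - pt q' x.2‖ ≤ Δ), f x ∈ (Icc (-(H : ℤ)) H).erase 0 := by
    intro x hx
    rw [mem_filter] at hx
    obtain ⟨_, hne, hle⟩ := hx
    rw [pt_dist] at hle
    rw [mem_erase, mem_Icc]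
    constructor
    · intro h0
      apply hne
      have h1 := hfR x
      rw [h0] at h1
      have h2 : ((x.1 : ℝ) / q - (x.2 : ℝ) / q') - round ((x.1 : ℝ) / q - (x.2 : ℝ) / q') = 0 := by
        have h1' : (((x.1 : ℝ) / q - (x.2 : ℝ) / q') - round ((x.1 : ℝ) / q - (x.2 : ℝ) / q'))
            * (g * a * b) = 0 := by rw [← h1]; simp
        rcases mul_eq_zero.1 h1' with h | h
        · exact h
        · exact absurd h hgabpos.ne'
      have h3 : ‖pt q x.1 - pt q' x.2‖ = 0 := by rw [pt_dist, h2, abs_zero]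
      rw [norm_eq_zero, sub_eq_zero] at h3
      exact h3
    · have h1 : |(f x : ℝ)| ≤ Δ * (g * a * b) := by
        rw [hfR, abs_mul, abs_of_pos hgabpos]
        exact mul_le_mul_of_nonneg_right hle hgabpos.le
      have h2 : |f x| ≤ (H : ℤ) := by
        have h3 : ((|f x|).toNat : ℝ) ≤ Δ * (g * a * b) := by
          have : (((|f x|).toNat : ℕ) : ℝ) = |(f x : ℝ)| := by
            have h4 : (((|f x|).toNat : ℕ) : ℤ) = |f x| := Int.toNat_of_nonneg (abs_nonneg _)
            have h5 : (((|f x|).toNat : ℕ) : ℝ) = ((|f x| : ℤ) : ℝ) := by exact_mod_cast h4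
            rw [h5]; push_cast; rfl
          rw [this]; exact h1
        have h4 : (|f x|).toNat ≤ H := Nat.le_floor h3
        have h5 : (((|f x|).toNat : ℕ) : ℤ) = |f x| := Int.toNat_of_nonneg (abs_nonneg _)
        rw [← h5]
        exact_mod_cast h4
      exact abs_le.1 h2
  have hfib : ∀ h ∈ (Icc (-(H : ℤ)) H).erase 0, ((((range q) ×ˢ (range q')).filter
      (fun x => pt q x.1 ≠ pt q' x.2 ∧ ‖pt q x.1 - pt q' x.2‖ ≤ Δ)).filter (fun x => f x = h)).card ≤ g := by
    intro h _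
    have hmap : Set.MapsTo (fun x : ℕ × ℕ => x.1 / a) ((((range q) ×ˢ (range q')).filter
      (fun x => pt q x.1 ≠ pt q' x.2 ∧ ‖pt q x.1 - pt q' x.2‖ ≤ Δ)).filter (fun x => f x = h))
      (range g : Finset ℕ) := by
      intro x hx
      simp only [coe_filter, mem_filter, mem_product, mem_range, Set.mem_ofPred_eq] at hx
      simp only [coe_range, Set.mem_Iio]
      rw [Nat.div_lt_iff_lt_mul ha0]
      have := hx.1.1.1
      rw [ha] at this
      rw [mul_comm]; exact this
    have hinj : Set.InjOn (fun x : ℕ × ℕ => x.1 / a) ((((range q) ×ˢ (range q')).filter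
      (fun x => pt q x.1 ≠ pt q' x.2 ∧ ‖pt q x.1 - pt q' x.2‖ ≤ Δ)).filter (fun x => f x = h)) := by
      intro x hx y hy hxy
      simp only [coe_filter, mem_filter, mem_product, mem_range, Set.mem_ofPred_eq] at hx hy
      simp only at hxy
      have e1 : f x = f y := by rw [hx.2, hy.2]
      simp only [hf] at e1
      set t := round ((x.1 : ℝ) / q - (x.2 : ℝ) / q')
      set t' := round ((y.1 : ℝ) / q - (y.2 : ℝ) / q')
      have e2 : ((x.1 : ℤ) - y.1) * b = a * ((x.2 : ℤ) - y.2 + (t - t') * (g * b)) := by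
        linear_combination e1
      have hcop : IsCoprime (a : ℤ) (b : ℤ) := Nat.isCoprime_iff_coprime.2 hab
      have hdvd : (a : ℤ) ∣ ((x.1 : ℤ) - y.1) := by
        apply hcop.dvd_of_dvd_mul_right
        exact ⟨_, e2⟩
      have hlt : |(x.1 : ℤ) - y.1| < a := by
        have h1 := Nat.div_add_mod x.1 a
        have h2 := Nat.div_add_mod y.1 a
        have h3 := Nat.mod_lt x.1 ha0
        have h4 := Nat.mod_lt y.1 ha0
        rw [hxy] at h1
        rw [abs_lt]
        constructor <;> omega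
      have h0 := Int.eq_zero_of_abs_lt_dvd hdvd hlt
      have hx1 : x.1 = y.1 := by omega
      rw [h0, zero_mul] at e2
      have e3 : ((x.2 : ℤ) - y.2 + (t - t') * (g * b)) = 0 := by
        rcases mul_eq_zero.1 e2.symm with h | h
        · exfalso; have : a = 0 := by exact_mod_cast h
          omega
        · exact h
      have hdvd2 : ((g * b : ℕ) : ℤ) ∣ ((x.2 : ℤ) - y.2) := ⟨t' - t, by push_cast; linear_combination e3⟩
      have hlt2 : |(x.2 : ℤ) - y.2| < ((g * b : ℕ) : ℤ) := by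
        have h1 := hx.1.1.2
        have h2 := hy.1.1.2
        rw [hb, mul_comm] at h1 h2
        rw [abs_lt]
        constructor <;> omega
      have h02 := Int.eq_zero_of_abs_lt_dvd hdvd2 hlt2
      exact Prod.ext hx1 (by omega)
    have := Finset.card_le_card_of_injOn _ hmap hinj
    rwa [card_range] at this
  have hcard := Finset.card_le_mul_card_image_of_maps_to hmaps g hfib
  have hH2 : ((Icc (-(H : ℤ)) H).erase 0).card = 2 * H := by
    rw [card_erase_of_mem (by simp), Int.card_Icc]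
    omega
  rw [hH2] at hcard
  have hHle : (H : ℝ) ≤ Δ * (g * a * b) := Nat.floor_le (by positivity)
  have h1 : (q : ℝ) = a * g := by rw [ha]; push_cast; ring
  have h2 : (q' : ℝ) = b * g := by rw [hb]; push_cast; ring
  calc ((((range q) ×ˢ (range q')).filter
      (fun x => pt q x.1 ≠ pt q' x.2 ∧ ‖pt q x.1 - pt q' x.2‖ ≤ Δ)).card : ℝ) ≤ ((g * (2 * H) : ℕ) : ℝ) := by
        exact_mod_cast hcard
    _ = 2 * g * H := by push_cast; ring
    _ ≤ 2 * g * (Δ * (g * a * b)) := by
        apply mul_le_mul_of_nonneg_left hHle; positivity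
    _ = 2 * Δ * q * q' := by rw [h1, h2]; ring

end Pool.Agent.Helper74.KV
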