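import Mathlib
import Pool.Agent.Helper74.KV.K1

set_option autoImplicit false

namespace Pool.Agent.Helper74.KV

open Finset MeasureTheory

theorem vol_ball (c : UnitAddCircle) (r : ℝ) (h0 : 0 ≤ r) (h1 : r ≤ 1 / 2) :
    volume.real (Metric.closedBall c r) = 2 * r := by
  rw [Measure.real, AddCircle.volume_closedBall, min_eq_right (by linarith),
    ENNReal.toReal_ofReal (by linarith)]

theorem vol_inter (c c' : UnitAddCircle) (r r' : ℝ) (h0 : 0 ≤ r) (h1 : r ≤ 1 / 2)
    (h0' : 0 ≤ r') (h1' : r' ≤ 1 / 2) :
    volume.real (Metric.closedBall c r ∩ Metric.closedBall c' r')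
      ≤ if ‖c - c'‖ ≤ r + r' then 2 * min r r' else 0 := by
  split_ifs with h
  · rw [mul_min_of_nonneg _ _ (by norm_num : (0 : ℝ) ≤ 2), ← vol_ball c r h0 h1, ← vol_ball c' r' h0' h1']
    apply le_min
    · exact measureReal_mono Set.inter_subset_left
    · exact measureReal_mono Set.inter_subset_right
  · have : Metric.closedBall c r ∩ Metric.closedBall c' r' = ∅ := by
      ext x
      simp only [Set.mem_inter_iff, Metric.mem_closedBall, Set.mem_empty_iff_false, iff_false, not_and]
      intro hx hx'
      apply h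
      rw [← dist_eq_norm]
      have := dist_triangle_left c c' x
      linarith
    rw [this]; simp

theorem pz {ι : Type} (T : Finset ι) (c : ι → UnitAddCircle) (r : ι → ℝ)
    (h0 : ∀ i ∈ T, 0 ≤ r i) (h1 : ∀ i ∈ T, r i ≤ 1 / 2) :
    (∑ i ∈ T, 2 * r i) ^ 2 ≤ volume.real (⋃ i ∈ T, Metric.closedBall (c i) (r i))
      * ∑ i ∈ T, ∑ j ∈ T, (if ‖c i - c j‖ ≤ r i + r j then 2 * min (r i) (r j) else 0) := by
  set B : ι → Set UnitAddCircle := fun i => Metric.closedBall (c i) (r i) with hB
  have hmeas : ∀ i, MeasurableSet (B i) := fun i => Metric.isClosed_closedBall.measurableSet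
  set U : Set UnitAddCircle := ⋃ i ∈ T, B i with hU
  have hUmeas : MeasurableSet U := T.measurableSet_biUnion (fun i _ => hmeas i)
  set f : UnitAddCircle → ℝ := fun x => ∑ i ∈ T, (B i).indicator (fun _ => (1 : ℝ)) x with hf
  have hint : ∀ s : Set UnitAddCircle, MeasurableSet s →
      Integrable (s.indicator (fun _ => (1 : ℝ))) volume := by
    intro s hs
    exact (integrable_const (1 : ℝ)).indicator hs
  have hfint : Integrable f volume := integrable_finsetSum _ (fun i _ => hint _ (hmeas i))
  have hff : ∀ x, f x * f x = ∑ i ∈ T, ∑ j ∈ T, (B i ∩ B j).indicator (fun _ => (1 : ℝ)) x := by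
    intro x
    simp only [hf]
    rw [sum_mul_sum]
    apply sum_congr rfl
    intro i _
    apply sum_congr rfl
    intro j _
    by_cases hi : x ∈ B i <;> by_cases hj : x ∈ B j <;> simp [Set.indicator_apply, hi, hj]
  have hf2int : Integrable (fun x => f x * f x) volume := by
    have : (fun x => f x * f x) = fun x => ∑ i ∈ T, ∑ j ∈ T, (B i ∩ B j).indicator (fun _ => (1 : ℝ)) x :=
      funext hff
    rw [this]
    exact integrable_finsetSum _ (fun i _ => integrable_finsetSum _
      (fun j _ => hint _ ((hmeas i).inter (hmeas j))))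
  have hI1 : ∫ x, f x = ∑ i ∈ T, 2 * r i := by
    simp only [hf]
    rw [integral_finsetSum _ (fun i _ => hint _ (hmeas i))]
    apply sum_congr rfl
    intro i hi
    rw [integral_indicator (hmeas i), setIntegral_const, smul_eq_mul, mul_one]
    exact vol_ball _ _ (h0 i hi) (h1 i hi)
  have hI2 : ∫ x, f x * f x ≤ ∑ i ∈ T, ∑ j ∈ T, (if ‖c i - c j‖ ≤ r i + r j then 2 * min (r i) (r j) else 0) := by
    have : (fun x => f x * f x) = fun x => ∑ i ∈ T, ∑ j ∈ T, (B i ∩ B j).indicator (fun _ => (1 : ℝ)) x :=
      funext hff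
    rw [this, integral_finsetSum _ (fun i _ => integrable_finsetSum _
      (fun j _ => hint _ ((hmeas i).inter (hmeas j))))]
    apply sum_le_sum
    intro i hi
    rw [integral_finsetSum _ (fun j _ => hint _ ((hmeas i).inter (hmeas j)))]
    apply sum_le_sum
    intro j hj
    rw [integral_indicator ((hmeas i).inter (hmeas j)), setIntegral_const, smul_eq_mul, mul_one]
    exact vol_inter _ _ _ _ (h0 i hi) (h1 i hi) (h0 j hj) (h1 j hj)
  have hU1 : ∫ x, U.indicator (fun _ => (1 : ℝ)) x = volume.real U := by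
    rw [integral_indicator hUmeas, setIntegral_const, smul_eq_mul, mul_one]
  set F1 := ∑ i ∈ T, 2 * r i
  set F2 := ∑ i ∈ T, ∑ j ∈ T, (if ‖c i - c j‖ ≤ r i + r j then 2 * min (r i) (r j) else 0)
  have hkey : ∀ t : ℝ, 2 * t * F1 - t ^ 2 * F2 ≤ volume.real U := by
    intro t
    have h2 : ∫ x, (2 * t * f x - t ^ 2 * (f x * f x)) ≤ ∫ x, U.indicator (fun _ => (1 : ℝ)) x := by
      apply integral_mono ((hfint.const_mul _).sub (hf2int.const_mul _)) (hint _ hUmeas)
      intro x
      show 2 * t * f x - t ^ 2 * (f x * f x) ≤ U.indicator (fun _ => (1 : ℝ)) x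
      by_cases hx : x ∈ U
      · rw [Set.indicator_of_mem hx]
        nlinarith [sq_nonneg (1 - t * f x)]
      · rw [Set.indicator_of_notMem hx]
        have : f x = 0 := by
          simp only [hf]
          apply sum_eq_zero
          intro i hi
          rw [Set.indicator_of_notMem]
          intro h
          apply hx
          rw [hU]
          exact Set.mem_biUnion hi h
        rw [this]; simp
    rw [integral_sub (hfint.const_mul _) (hf2int.const_mul _), integral_const_mul,
      integral_const_mul, hI1, hU1] at h2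
    have h3 : t ^ 2 * ∫ x, f x * f x ≤ t ^ 2 * F2 := mul_le_mul_of_nonneg_left hI2 (sq_nonneg t)
    linarith
  have hF2 : 0 ≤ F2 := by
    refine le_trans ?_ hI2
    exact integral_nonneg (fun x => mul_self_nonneg _)
  rcases eq_or_lt_of_le hF2 with h | h
  · -- F2 = 0 forces F1 = 0
    rw [← h, mul_zero]
    have hF1 : F1 = 0 := by
      by_contra hne
      have h5 := hkey ((volume.real U + 1) / (2 * F1))
      rw [← h] at h5
      have h6 : 2 * ((volume.real U + 1) / (2 * F1)) * F1 = volume.real U + 1 := by field_simp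
      rw [h6] at h5
      linarith
    rw [hF1]; simp
  · have h5 := hkey (F1 / F2)
    have h6 : 2 * (F1 / F2) * F1 - (F1 / F2) ^ 2 * F2 = F1 ^ 2 / F2 := by
      field_simp; ring
    rw [h6, div_le_iff₀ h] at h5
    exact h5

end Pool.Agent.Helper74.KV
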