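import Mathlib
import Pool.Agent.Helper74.KV.K2

set_option autoImplicit false

namespace Pool.Agent.Helper74.KV

open Finset MeasureTheory

/-- coincident pairs -/
noncomputable def co (q q' : ℕ) (N N' : Finset ℕ) : Finset (ℕ × ℕ) := by
  classical
  exact (N ×ˢ N').filter (fun x => pt q x.1 = pt q' x.2)

theorem pair_sum (q q' : ℕ) (hq : 0 < q) (hq' : 0 < q') (ρ ρ' : ℝ) (h0 : 0 ≤ ρ) (h0' : 0 ≤ ρ')
    (N N' : Finset ℕ) (hN : N ⊆ range q) (hN' : N' ⊆ range q') :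
    ∑ s ∈ N, ∑ s' ∈ N', (if ‖pt q s - pt q' s'‖ ≤ ρ / q + ρ' / q' then 2 * min (ρ / q) (ρ' / q') else 0)
      ≤ 8 * ρ * ρ' + 2 * (min (ρ / q) (ρ' / q') * ((co q q' N N').card : ℝ)) := by
  classical
  have hqR : (0 : ℝ) < q := by exact_mod_cast hq
  have hqR' : (0 : ℝ) < q' := by exact_mod_cast hq'
  have hr : 0 ≤ ρ / q := by positivity
  have hr' : 0 ≤ ρ' / q' := by positivity
  set μ := min (ρ / q) (ρ' / q') with hμ
  have hμ0 : 0 ≤ μ := le_min hr hr'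
  rw [← sum_product']
  have h1 : ∀ x ∈ N ×ˢ N', (if ‖pt q x.1 - pt q' x.2‖ ≤ ρ / q + ρ' / q' then 2 * μ else 0)
      ≤ (if pt q x.1 = pt q' x.2 then 2 * μ else 0)
        + (if (pt q x.1 ≠ pt q' x.2 ∧ ‖pt q x.1 - pt q' x.2‖ ≤ ρ / q + ρ' / q') then 2 * μ else 0) := by
    intro x _
    by_cases hc : pt q x.1 = pt q' x.2
    · have hn : ¬ (pt q x.1 ≠ pt q' x.2 ∧ ‖pt q x.1 - pt q' x.2‖ ≤ ρ / q + ρ' / q') := fun h => h.1 hc
      rw [if_pos hc, if_neg hn]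
      split_ifs <;> linarith
    · rw [if_neg hc, zero_add]
      split_ifs with h2 h3 h3
      · exact le_rfl
      · exact absurd ⟨hc, h2⟩ h3
      · linarith
      · exact le_rfl
  refine (sum_le_sum h1).trans ?_
  rw [sum_add_distrib, ← sum_filter, ← sum_filter, sum_const, sum_const, nsmul_eq_mul, nsmul_eq_mul]
  have h2 : ((((N ×ˢ N').filter (fun x => pt q x.1 ≠ pt q' x.2 ∧
      ‖pt q x.1 - pt q' x.2‖ ≤ ρ / q + ρ' / q')).card : ℝ)) ≤ 2 * (ρ / q + ρ' / q') * q * q' := by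
    refine le_trans ?_ (close_pairs q q' hq hq' (ρ / q + ρ' / q') (by positivity))
    have : (N ×ˢ N').filter (fun x => pt q x.1 ≠ pt q' x.2 ∧
      ‖pt q x.1 - pt q' x.2‖ ≤ ρ / q + ρ' / q') ⊆ ((range q) ×ˢ (range q')).filter
      (fun x => pt q x.1 ≠ pt q' x.2 ∧ ‖pt q x.1 - pt q' x.2‖ ≤ ρ / q + ρ' / q') :=
      filter_subset_filter _ (product_subset_product hN hN')
    have h3 := card_le_card this
    exact_mod_cast h3
  have h3 : 2 * (ρ / q + ρ' / q') * q * q' * (2 * μ) ≤ 8 * ρ * ρ' := by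
    have h4 : (ρ / q + ρ' / q') * μ ≤ 2 * ((ρ / q) * (ρ' / q')) := by
      rcases le_total (ρ / q) (ρ' / q') with h | h
      · rw [hμ, min_eq_left h]; nlinarith
      · rw [hμ, min_eq_right h]; nlinarith
    have h5 : 2 * (ρ / q + ρ' / q') * q * q' * (2 * μ) = 4 * ((ρ / q + ρ' / q') * μ) * (q * q') := by ring
    have h6 : 8 * ρ * ρ' = 4 * (2 * ((ρ / q) * (ρ' / q'))) * (q * q') := by field_simp; ring
    rw [h5, h6]
    apply mul_le_mul_of_nonneg_right _ (by positivity)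
    linarith
  have h4 : (((N ×ˢ N').filter (fun x => pt q x.1 = pt q' x.2)).card : ℝ) = ((co q q' N N').card : ℝ) := by
    unfold co; congr
  have h5 := mul_le_mul_of_nonneg_right h2 (by positivity : 0 ≤ 2 * μ)
  rw [h4]
  linarith

theorem lemG {ι : Type} (T : Finset ι) (q : ι → ℕ) (ρ : ι → ℝ) (N : ι → Finset ℕ)
    (hq : ∀ i ∈ T, 0 < q i) (hN : ∀ i ∈ T, N i ⊆ range (q i)) (hρ0 : ∀ i ∈ T, 0 ≤ ρ i)
    (hρ1 : ∀ i ∈ T, ρ i ≤ 1 / 2) (c1 c2 : ℝ) (hc1 : 0 < c1) (hc2 : 0 ≤ c2)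
    (hS : 1 ≤ ∑ i ∈ T, ρ i)
    (h1 : c1 * ∑ i ∈ T, ρ i ≤ ∑ i ∈ T, ρ i * (N i).card / q i)
    (h2 : ∑ i ∈ T, ∑ j ∈ T, min (ρ i / q i) (ρ j / q j) * ((co (q i) (q j) (N i) (N j)).card : ℝ)
      ≤ c2 * ∑ i ∈ T, ρ i) :
    4 * c1 ^ 2 / (8 + 2 * c2)
      ≤ volume.real (⋃ i ∈ T, ⋃ s ∈ N i, Metric.closedBall (pt (q i) s) (ρ i / q i)) := by
  set S := ∑ i ∈ T, ρ i with hSdef
  have hr0 : ∀ i ∈ T, 0 ≤ ρ i / q i := fun i hi => div_nonneg (hρ0 i hi) (Nat.cast_nonneg _)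
  have hr1 : ∀ i ∈ T, ρ i / q i ≤ 1 / 2 := by
    intro i hi
    have : (1 : ℝ) ≤ q i := by exact_mod_cast hq i hi
    exact (div_le_self (hρ0 i hi) this).trans (hρ1 i hi)
  have hpz := pz (T.sigma N) (fun x : (Σ _ : ι, ℕ) => pt (q x.1) x.2) (fun x => ρ x.1 / q x.1)
    (fun x hx => hr0 x.1 (mem_sigma.1 hx).1) (fun x hx => hr1 x.1 (mem_sigma.1 hx).1)
  have hU : (⋃ x ∈ T.sigma N, Metric.closedBall (pt (q x.1) x.2) (ρ x.1 / q x.1))
      = ⋃ i ∈ T, ⋃ s ∈ N i, Metric.closedBall (pt (q i) s) (ρ i / q i) := by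
    ext x
    simp only [Set.mem_iUnion, mem_sigma, exists_prop, Sigma.exists]
    constructor
    · rintro ⟨i, s, ⟨hi, hs⟩, hx⟩; exact ⟨i, hi, s, hs, hx⟩
    · rintro ⟨i, hi, s, hs, hx⟩; exact ⟨i, s, ⟨hi, hs⟩, hx⟩
  rw [hU] at hpz
  have hF1 : ∑ x ∈ T.sigma N, 2 * (ρ x.1 / q x.1) = 2 * ∑ i ∈ T, ρ i * (N i).card / q i := by
    rw [sum_sigma, mul_sum]
    apply sum_congr rfl
    intro i _
    show ∑ s ∈ N i, 2 * (ρ i / q i) = 2 * (ρ i * (N i).card / q i)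
    rw [sum_const, nsmul_eq_mul]
    ring
  have hF2 : ∑ x ∈ T.sigma N, ∑ y ∈ T.sigma N, (if ‖pt (q x.1) x.2 - pt (q y.1) y.2‖
        ≤ ρ x.1 / q x.1 + ρ y.1 / q y.1 then 2 * min (ρ x.1 / q x.1) (ρ y.1 / q y.1) else 0)
      ≤ (8 + 2 * c2) * S ^ 2 := by
    rw [sum_sigma]
    have e1 : ∀ i ∈ T, ∑ s ∈ N i, ∑ y ∈ T.sigma N, (if ‖pt (q i) s - pt (q y.1) y.2‖
        ≤ ρ i / q i + ρ y.1 / q y.1 then 2 * min (ρ i / q i) (ρ y.1 / q y.1) else 0)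
        = ∑ j ∈ T, ∑ s ∈ N i, ∑ s' ∈ N j, (if ‖pt (q i) s - pt (q j) s'‖
        ≤ ρ i / q i + ρ j / q j then 2 * min (ρ i / q i) (ρ j / q j) else 0) := by
      intro i _
      rw [sum_comm]
      rw [sum_sigma]
      apply sum_congr rfl
      intro j _
      rw [sum_comm]
    rw [sum_congr rfl e1]
    have e2 : ∀ i ∈ T, ∑ j ∈ T, ∑ s ∈ N i, ∑ s' ∈ N j, (if ‖pt (q i) s - pt (q j) s'‖
        ≤ ρ i / q i + ρ j / q j then 2 * min (ρ i / q i) (ρ j / q j) else 0)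
        ≤ ∑ j ∈ T, (8 * ρ i * ρ j + 2 * (min (ρ i / q i) (ρ j / q j)
          * ((co (q i) (q j) (N i) (N j)).card : ℝ))) := by
      intro i hi
      apply sum_le_sum
      intro j hj
      exact pair_sum (q i) (q j) (hq i hi) (hq j hj) (ρ i) (ρ j) (hρ0 i hi) (hρ0 j hj) (N i) (N j)
        (hN i hi) (hN j hj)
    refine (sum_le_sum e2).trans ?_
    have e3 : ∑ i ∈ T, ∑ j ∈ T, (8 * ρ i * ρ j + 2 * (min (ρ i / q i) (ρ j / q j)
          * ((co (q i) (q j) (N i) (N j)).card : ℝ)))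
        = 8 * S ^ 2 + 2 * ∑ i ∈ T, ∑ j ∈ T, min (ρ i / q i) (ρ j / q j)
          * ((co (q i) (q j) (N i) (N j)).card : ℝ) := by
      have e4 : S ^ 2 = ∑ i ∈ T, ∑ j ∈ T, ρ i * ρ j := by rw [hSdef, sq, sum_mul_sum]
      rw [e4, mul_sum, mul_sum, ← sum_add_distrib]
      apply sum_congr rfl
      intro i _
      rw [mul_sum, mul_sum, ← sum_add_distrib]
      apply sum_congr rfl
      intro j _
      ring
    rw [e3]
    have e5 : c2 * S ≤ c2 * S ^ 2 := mul_le_mul_of_nonneg_left (by nlinarith) hc2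
    linarith
  have hvol0 : 0 ≤ volume.real (⋃ i ∈ T, ⋃ s ∈ N i, Metric.closedBall (pt (q i) s) (ρ i / q i)) :=
    measureReal_nonneg
  have hbig : (2 * (c1 * S)) ^ 2 ≤ volume.real (⋃ i ∈ T, ⋃ s ∈ N i, Metric.closedBall (pt (q i) s) (ρ i / q i))
      * ((8 + 2 * c2) * S ^ 2) := by
    rw [hF1] at hpz
    have h3 : (2 * (c1 * S)) ^ 2 ≤ (2 * ∑ i ∈ T, ρ i * (N i).card / q i) ^ 2 := by
      apply pow_le_pow_left₀ (by nlinarith)
      linarith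
    refine h3.trans (hpz.trans ?_)
    exact mul_le_mul_of_nonneg_left hF2 hvol0
  rw [div_le_iff₀ (by linarith)]
  have hS2 : 0 < S ^ 2 := by positivity
  have h4 : 4 * c1 ^ 2 * S ^ 2 ≤ volume.real (⋃ i ∈ T, ⋃ s ∈ N i, Metric.closedBall (pt (q i) s) (ρ i / q i))
      * (8 + 2 * c2) * S ^ 2 := by
    calc 4 * c1 ^ 2 * S ^ 2 = (2 * (c1 * S)) ^ 2 := by ring
      _ ≤ _ := hbig
      _ = _ := by ring
  exact le_of_mul_le_mul_right h4 hS2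

end Pool.Agent.Helper74.KV
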