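import Mathlib
import Pool.Agent.Helper74.KV.K3

set_option autoImplicit false

namespace Pool.Agent.Helper74.KV

open Finset MeasureTheory Filter Topology

theorem coe_int (z : ℤ) : ((z : ℝ) : UnitAddCircle) = 0 :=
  (AddCircle.coe_eq_zero_iff 1).2 ⟨z, by simp⟩

theorem norm_coe_le (y : ℝ) : ‖(y : UnitAddCircle)‖ ≤ |y| := by
  rw [UnitAddCircle.norm_eq]
  have := round_le y 0
  simpa using this

/-- points of the circle approximated at some index beyond `K` -/
def UU (ψ : ℕ → ℝ) (a : UnitAddCircle) (K : ℕ) : Set UnitAddCircle :=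
  {x | ∃ q : ℕ, K ≤ q ∧ 0 < q ∧ ‖q • a‖ < ψ q ∧ ‖q • x‖ < ψ q}

/-- points approximated at infinitely many indices -/
def WW (ψ : ℕ → ℝ) (a : UnitAddCircle) : Set UnitAddCircle :=
  {x | {q : ℕ | 0 < q ∧ ‖q • a‖ < ψ q ∧ ‖q • x‖ < ψ q}.Infinite}

theorem WW_eq (ψ : ℕ → ℝ) (a : UnitAddCircle) : WW ψ a = ⋂ K, UU ψ a K := by
  ext x
  simp only [WW, UU, Set.mem_iInter, Set.mem_ofPred_eq]
  constructor
  · intro h K
    obtain ⟨q, hq, hK⟩ := h.exists_gt K
    exact ⟨q, hK.le, hq⟩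
  · intro h
    apply Set.infinite_of_forall_exists_gt
    intro K
    obtain ⟨q, hK, hq⟩ := h (K + 1)
    exact ⟨q, hq, by omega⟩

theorem UU_open (ψ : ℕ → ℝ) (a : UnitAddCircle) (K : ℕ) : IsOpen (UU ψ a K) := by
  have : UU ψ a K = ⋃ q : ℕ, ⋃ (_ : K ≤ q ∧ 0 < q ∧ ‖q • a‖ < ψ q), {x | ‖q • x‖ < ψ q} := by
    ext x
    simp only [UU, Set.mem_ofPred_eq, Set.mem_iUnion, exists_prop]
    constructor
    · rintro ⟨q, h1, h2, h3, h4⟩; exact ⟨q, ⟨h1, h2, h3⟩, h4⟩
    · rintro ⟨q, ⟨h1, h2, h3⟩, h4⟩; exact ⟨q, h1, h2, h3, h4⟩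
  rw [this]
  refine isOpen_iUnion (fun q => isOpen_iUnion (fun _ => ?_))
  exact isOpen_lt (by fun_prop) continuous_const

theorem WW_pos (ψ : ℕ → ℝ) (a : UnitAddCircle) (c : ℝ) (hc : 0 < c)
    (h : ∀ K, c ≤ volume.real (UU ψ a K)) : volume (WW ψ a) ≠ 0 := by
  rw [WW_eq]
  have hanti : Antitone (UU ψ a) := by
    intro K K' hK x hx
    obtain ⟨q, h1, h2⟩ := hx
    exact ⟨q, hK.trans h1, h2⟩
  have ht := tendsto_measure_iInter_atTop (μ := (volume : Measure UnitAddCircle)) (s := UU ψ a)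
    (fun K => (UU_open ψ a K).measurableSet.nullMeasurableSet) hanti ⟨0, measure_ne_top _ _⟩
  have hge : ENNReal.ofReal c ≤ volume (⋂ K, UU ψ a K) := by
    refine ge_of_tendsto ht (Eventually.of_forall (fun K => ?_))
    exact ENNReal.ofReal_le_of_le_toReal (h K)
  intro h0
  rw [h0] at hge
  have : ENNReal.ofReal c ≠ 0 := by simpa using hc
  exact this (le_antisymm hge bot_le)

/-- radii attached to reduced fractions -/
noncomputable def dd (ψ : ℕ → ℝ) (a : UnitAddCircle) (v : ℕ) : ℝ :=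
  ⨆ n : ℕ, (open Classical in if 0 < n ∧ ‖(n * v) • a‖ < ψ (n * v) then ψ (n * v) / ((n * v : ℕ) : ℝ) else 0)

section
variable (ψ : ℕ → ℝ) (a : UnitAddCircle) (hanti : Antitone ψ) (hpos : ∀ q, 0 ≤ ψ q)

include hanti hpos

theorem dd_term_le (v n : ℕ) : (open Classical in if 0 < n ∧ ‖(n * v) • a‖ < ψ (n * v)
    then ψ (n * v) / ((n * v : ℕ) : ℝ) else 0) ≤ ψ v := by
  classical
  split_ifs with h
  · rcases Nat.eq_zero_or_pos v with hv | hv
    · subst hv; simpa using hpos 0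
    · have h1 : v ≤ n * v := Nat.le_mul_of_pos_left v h.1
      have h2 : (1 : ℝ) ≤ ((n * v : ℕ) : ℝ) := by
        have : 1 ≤ n * v := Nat.mul_pos h.1 hv
        exact_mod_cast this
      exact (div_le_self (hpos _) h2).trans (hanti h1)
  · exact hpos v

theorem dd_bdd (v : ℕ) : BddAbove (Set.range (fun n : ℕ => (open Classical in
    if 0 < n ∧ ‖(n * v) • a‖ < ψ (n * v) then ψ (n * v) / ((n * v : ℕ) : ℝ) else 0))) := by
  refine ⟨ψ v, ?_⟩
  rintro _ ⟨n, rfl⟩
  exact dd_term_le ψ a hanti hpos v n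

theorem dd_le (v : ℕ) : dd ψ a v ≤ ψ v := ciSup_le (fun n => dd_term_le ψ a hanti hpos v n)

theorem dd_nonneg (v : ℕ) : 0 ≤ dd ψ a v := by
  classical
  refine le_trans ?_ (le_ciSup (dd_bdd ψ a hanti hpos v) 0)
  simp

theorem le_dd (v n : ℕ) (hn : 0 < n) (h : ‖(n * v) • a‖ < ψ (n * v)) :
    ψ (n * v) / ((n * v : ℕ) : ℝ) ≤ dd ψ a v := by
  classical
  refine le_trans ?_ (le_ciSup (dd_bdd ψ a hanti hpos v) n)
  rw [if_pos ⟨hn, h⟩]

theorem sub_WW : addWellApproximable UnitAddCircle (dd ψ a) ⊆ WW ψ a := by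
  classical
  intro x hx
  rw [UnitAddCircle.mem_addWellApproximable_iff] at hx
  show Set.Infinite _
  apply Set.infinite_of_forall_exists_gt
  intro K
  obtain ⟨v, ⟨m, hmv, _, hlt⟩, hK⟩ := hx.exists_gt K
  obtain ⟨n, hn⟩ := exists_lt_of_lt_ciSup hlt
  have hcond : 0 < n ∧ ‖(n * v) • a‖ < ψ (n * v) := by
    by_contra hc
    rw [if_neg hc] at hn
    exact absurd hn (not_lt.2 (norm_nonneg _))
  rw [if_pos hcond] at hn
  have hv : 0 < v := by omega
  have hnv : 0 < n * v := Nat.mul_pos hcond.1 hv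
  have hnvR : (0 : ℝ) < ((n * v : ℕ) : ℝ) := by exact_mod_cast hnv
  refine ⟨n * v, ⟨hnv, hcond.2, ?_⟩, ?_⟩
  · have h0 : (n * v) • (((m : ℝ) / v : ℝ) : UnitAddCircle) = 0 := by
      rw [← AddCircle.coe_nsmul, nsmul_eq_mul]
      have : ((n * v : ℕ) : ℝ) * ((m : ℝ) / v) = ((n * m : ℕ) : ℤ) := by
        have : (v : ℝ) ≠ 0 := by exact_mod_cast hv.ne'
        push_cast
        field_simp
      rw [this]
      exact coe_int _
    have h1 : (n * v) • x = (n * v) • (x - (((m : ℝ) / v : ℝ) : UnitAddCircle)) := by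
      rw [nsmul_sub, h0, sub_zero]
    rw [h1]
    refine (norm_nsmul_le).trans_lt ?_
    rw [lt_div_iff₀ hnvR] at hn
    linarith
  · calc K < v := hK
      _ ≤ n * v := Nat.le_mul_of_pos_left v hcond.1

theorem WW_sub (htend : Tendsto ψ atTop (𝓝 0)) (x : UnitAddCircle) (hx : x ∈ WW ψ a)
    (hirr : ∀ q s : ℕ, x ≠ pt q s) : x ∈ addWellApproximable UnitAddCircle (dd ψ a) := by
  classical
  rw [UnitAddCircle.mem_addWellApproximable_iff]
  by_contra hfin
  rw [Set.not_infinite] at hfin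
  set V := {n : ℕ | ∃ m < n, gcd m n = 1 ∧ ‖x - ↑((m : ℝ) / n)‖ < dd ψ a n} with hV
  -- finite set of points
  obtain ⟨L, hL⟩ := hfin.bddAbove
  have hd0 : ∃ d0 : ℝ, 0 < d0 ∧ ∀ v ≤ L, ∀ m < v, d0 ≤ ‖x - pt v m‖ := by
    set P := (range (L + 1)) ×ˢ (range (L + 1)) with hP
    have hne : P.Nonempty := ⟨(0, 0), by simp [hP]⟩
    obtain ⟨p0, _, hp0⟩ := exists_min_image P (fun p => ‖x - pt p.1 p.2‖) hne
    refine ⟨‖x - pt p0.1 p0.2‖, ?_, ?_⟩
    · rw [norm_pos_iff, sub_ne_zero]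
      exact hirr _ _
    · intro v hv m hm
      exact hp0 (v, m) (by simp only [hP, mem_product, mem_range]; omega)
  obtain ⟨d0, hd0pos, hd0⟩ := hd0
  have hev : ∀ᶠ q in atTop, ψ q < d0 := htend.eventually (gt_mem_nhds hd0pos)
  obtain ⟨K, hK⟩ := eventually_atTop.1 hev
  obtain ⟨q, ⟨hq0, hqa, hqx⟩, hqK⟩ := hx.exists_gt K
  have hψq := hK q hqK.le
  obtain ⟨y, rfl⟩ := QuotientAddGroup.mk_surjective x
  have hqR : (0 : ℝ) < q := by exact_mod_cast hq0
  have hx1 : ‖q • ((y : ℝ) : UnitAddCircle)‖ < ψ q := hqx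
  rw [← AddCircle.coe_nsmul, UnitAddCircle.norm_eq, nsmul_eq_mul] at hx1
  set s : ℤ := round ((q : ℝ) * y) with hs
  -- reduce s / q
  set g : ℕ := Int.gcd s q with hg
  have hg0 : 0 < g := Int.gcd_pos_of_ne_zero_right _ (by exact_mod_cast hq0.ne')
  obtain ⟨u, hu⟩ : (g : ℤ) ∣ s := Int.gcd_dvd_left _ _
  obtain ⟨v', hv'⟩ : (g : ℤ) ∣ (q : ℤ) := Int.gcd_dvd_right _ _
  have hv'pos : 0 < v' := by
    have h1 : (0 : ℤ) < g * v' := by rw [← hv']; exact_mod_cast hq0
    exact pos_of_mul_pos_right h1 (by positivity)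
  obtain ⟨v, rfl⟩ : ∃ v : ℕ, v' = v := ⟨v'.toNat, by omega⟩
  have hv : 0 < v := by exact_mod_cast hv'pos
  have hqv : q = g * v := by exact_mod_cast hv'
  have hcop : Int.gcd u v = 1 := by
    have h1 : Int.gcd (g * u) (g * v) = g * Int.gcd u v := by
      rw [Int.gcd_mul_left]; simp
    have h2 : Int.gcd (g * u) (g * v) = g := by rw [← hu, ← hv', hg]
    rw [h2] at h1
    have : g * 1 = g * Int.gcd u v := by rw [mul_one]; exact h1
    exact (Nat.eq_of_mul_eq_mul_left hg0 this).symm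
  set m : ℕ := (u % v).toNat with hm
  have hvz : (0 : ℤ) < v := by exact_mod_cast hv
  have hmz : (m : ℤ) = u % v := Int.toNat_of_nonneg (Int.emod_nonneg _ hvz.ne')
  have hmv : m < v := by
    have := Int.emod_lt_of_pos u hvz
    rw [← hmz] at this
    exact_mod_cast this
  have hgm : gcd m v = 1 := by
    have h1 : Int.gcd (m : ℤ) v = 1 := by rw [hmz, Int.gcd_emod]; exact hcop
    exact_mod_cast h1
  have hpt : (((u : ℝ) / v : ℝ) : UnitAddCircle) = pt v m := by
    unfold pt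
    have h1 : (u : ℝ) / v = (m : ℝ) / v + ((u / v : ℤ) : ℝ) := by
      have h2 : (u : ℝ) = m + v * ((u / v : ℤ) : ℝ) := by
        have := Int.emod_add_mul_ediv u v
        rw [← hmz] at this
        exact_mod_cast this.symm
      have hvR : (v : ℝ) ≠ 0 := by exact_mod_cast hv.ne'
      field_simp
      linarith
    rw [h1, AddCircle.coe_add]
    have : (((u / v : ℤ) : ℝ) : UnitAddCircle) = 0 := coe_int _
    rw [this, add_zero]
  have hdist : ‖((y : ℝ) : UnitAddCircle) - pt v m‖ < ψ q / q := by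
    rw [← hpt, ← AddCircle.coe_sub]
    refine (norm_coe_le _).trans_lt ?_
    have hgR : (g : ℝ) ≠ 0 := by exact_mod_cast hg0.ne'
    have hvR : (v : ℝ) ≠ 0 := by exact_mod_cast hv.ne'
    have e1 : y - (u : ℝ) / v = ((q : ℝ) * y - s) / q := by
      have h1 : (q : ℝ) = g * v := by rw [hqv]; push_cast; ring
      have h2 : (s : ℝ) = g * u := by rw [hu]; push_cast; ring
      rw [h1, h2]
      field_simp
    rw [e1, abs_div, abs_of_pos hqR]
    exact div_lt_div_of_pos_right hx1 hqR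
  have hle : ψ q / q ≤ dd ψ a v := by
    have := le_dd ψ a hanti hpos v g hg0 (by rw [← hqv]; exact hqa)
    rw [← hqv] at this
    exact this
  have hmem : v ∈ V := by
    refine ⟨m, hmv, hgm, ?_⟩
    exact hdist.trans_le hle
  have h1 := hd0 v (hL hmem) m hmv
  have h2 : ψ q / q ≤ ψ q := div_le_self (hpos q) (by exact_mod_cast hq0)
  have h3 : ‖((y : ℝ) : UnitAddCircle) - pt v m‖ < d0 := hdist.trans_le (h2.trans hψq.le)
  exact absurd h1 (not_le.2 h3)

theorem zero_one (htend : Tendsto ψ atTop (𝓝 0)) (c : ℝ) (hc : 0 < c)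
    (h : ∀ K, c ≤ volume.real (UU ψ a K)) : ∀ᵐ x, x ∈ WW ψ a := by
  have hddt : Tendsto (dd ψ a) atTop (𝓝 0) :=
    squeeze_zero (dd_nonneg ψ a hanti hpos) (dd_le ψ a hanti hpos) htend
  rcases AddCircle.addWellApproximable_ae_empty_or_univ (T := 1) (dd ψ a) hddt with h1 | h1
  · exfalso
    apply WW_pos ψ a c hc h
    set R : Set UnitAddCircle := Set.range (fun p : ℕ × ℕ => pt p.1 p.2) with hR
    have hR0 : volume R = 0 := by
      haveI : NullSingletonClass (volume : Measure UnitAddCircle) := ⟨fun x => by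
        have h2 : volume (Metric.closedBall x 0) = 0 := by
          rw [AddCircle.volume_closedBall]; simp
        exact measure_mono_null (by simp) h2⟩
      exact (Set.countable_range _).measure_zero _
    have hA0 : volume {x | x ∈ addWellApproximable UnitAddCircle (dd ψ a)} = 0 := by
      rw [ae_iff] at h1
      simpa using h1
    have hsub : WW ψ a ⊆ R ∪ {x | x ∈ addWellApproximable UnitAddCircle (dd ψ a)} := by
      intro x hx
      by_cases hxR : x ∈ R
      · exact Or.inl hxR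
      · right
        apply WW_sub ψ a hanti hpos htend x hx
        intro q s hqs
        exact hxR ⟨(q, s), hqs.symm⟩
    exact measure_mono_null hsub (measure_union_null hR0 hA0)
  · filter_upwards [h1] with x hx
    exact sub_WW ψ a hanti hpos hx

end

end Pool.Agent.Helper74.KV
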