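import Mathlib
import Pool.Agent.Helper74.KV.K4

set_option autoImplicit false

namespace Pool.Agent.Helper74.KV

open Finset

noncomputable def sE (α : ℝ) : ℕ → ℝ
  | 0 => 1
  | 1 => Int.fract α
  | (k + 2) => sE α k - (⌊sE α k / sE α (k + 1)⌋₊ : ℝ) * sE α (k + 1)

noncomputable def sa (α : ℝ) (k : ℕ) : ℕ := ⌊sE α k / sE α (k + 1)⌋₊

noncomputable def sQ (α : ℝ) : ℕ → ℕ
  | 0 => 0
  | 1 => 1
  | (k + 2) => sa α k * sQ α (k + 1) + sQ α k

noncomputable def sP (α : ℝ) : ℕ → ℤ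
  | 0 => 1
  | 1 => ⌊α⌋
  | (k + 2) => sa α k * sP α (k + 1) + sP α k

theorem sE_rec (α : ℝ) (k : ℕ) : sE α (k + 2) = sE α k - (sa α k : ℝ) * sE α (k + 1) := rfl
theorem sQ_rec (α : ℝ) (k : ℕ) : sQ α (k + 2) = sa α k * sQ α (k + 1) + sQ α k := rfl
theorem sP_rec (α : ℝ) (k : ℕ) : sP α (k + 2) = sa α k * sP α (k + 1) + sP α k := rfl

theorem s_signed (α : ℝ) (k : ℕ) : (sQ α k : ℝ) * α - sP α k = (-1) ^ (k + 1) * sE α k
    ∧ (sQ α (k + 1) : ℝ) * α - sP α (k + 1) = (-1) ^ (k + 2) * sE α (k + 1) := by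
  induction k with
  | zero =>
    constructor
    · simp [sQ, sP, sE]
    · simp only [sQ, sP, sE]
      simp
  | succ k ih =>
    refine ⟨ih.2, ?_⟩
    rw [sQ_rec, sP_rec, sE_rec]
    push_cast
    have h1 := ih.1
    have h2 := ih.2
    have e : ((-1 : ℝ)) ^ (k + 1 + 2) = (-1) ^ (k + 1) := by ring
    have e2 : ((-1 : ℝ)) ^ (k + 2) = - (-1) ^ (k + 1) := by ring
    rw [e2] at h2
    rw [e]
    linear_combination (sa α k : ℝ) * h2 + h1

theorem s_bez (α : ℝ) (k : ℕ) : (sQ α (k + 1) : ℝ) * sE α k + sQ α k * sE α (k + 1) = 1 := by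
  induction k with
  | zero => simp [sQ, sE]
  | succ k ih =>
    rw [sQ_rec, sE_rec]
    push_cast
    linear_combination ih

theorem s_cop (α : ℝ) (k : ℕ) : Nat.Coprime (sQ α k) (sQ α (k + 1)) := by
  induction k with
  | zero => simp [sQ]
  | succ k ih =>
    rw [sQ_rec]
    rw [Nat.coprime_mul_right_add_right]
    exact ih.symm

theorem s_pos (α : ℝ) (hα : Irrational α) (k : ℕ) :
    0 < sE α k ∧ 0 < sE α (k + 1) ∧ sE α (k + 1) < sE α k ∧ 0 < sQ α (k + 1) := by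
  induction k with
  | zero =>
    refine ⟨by simp [sE], ?_, ?_, by simp [sQ]⟩
    · show 0 < Int.fract α
      rw [Int.fract_pos]
      intro h
      exact hα ⟨(⌊α⌋ : ℚ), by rw [h]; simp⟩
    · show Int.fract α < 1
      exact Int.fract_lt_one α
  | succ k ih =>
    obtain ⟨h1, h2, h3, h4⟩ := ih
    have ha : 1 ≤ sa α k := by
      unfold sa
      apply Nat.le_floor
      rw [Nat.cast_one, le_div_iff₀ h2]; linarith
    have hfl : (sa α k : ℝ) ≤ sE α k / sE α (k + 1) := Nat.floor_le (by positivity)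
    have hfl2 : sE α k / sE α (k + 1) < sa α k + 1 := Nat.lt_floor_add_one _
    have hQ : 0 < sQ α (k + 2) := by
      rw [sQ_rec]; have := Nat.mul_pos (by omega : 0 < sa α k) h4; omega
    have hne : sE α (k + 2) ≠ 0 := by
      intro h0
      have hs := (s_signed α (k + 1)).2
      have : k + 1 + 1 = k + 2 := rfl
      rw [this, h0, mul_zero, sub_eq_zero] at hs
      apply hα
      refine ⟨(sP α (k + 2) : ℚ) / sQ α (k + 2), ?_⟩
      push_cast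
      have hQR : (sQ α (k + 2) : ℝ) ≠ 0 := by exact_mod_cast hQ.ne'
      rw [← hs]
      field_simp
    have hge : 0 ≤ sE α (k + 2) := by
      rw [sE_rec]
      rw [le_div_iff₀ h2] at hfl
      linarith
    refine ⟨h2, lt_of_le_of_ne hge (Ne.symm hne), ?_, hQ⟩
    rw [sE_rec]
    rw [div_lt_iff₀ h2] at hfl2
    linarith

theorem s_add (α : ℝ) (hα : Irrational α) (k : ℕ) : sQ α k + sQ α (k + 1) ≤ sQ α (k + 2) := by
  obtain ⟨h1, h2, h3, h4⟩ := s_pos α hα k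
  have ha : 1 ≤ sa α k := by
    unfold sa
    apply Nat.le_floor
    rw [Nat.cast_one, le_div_iff₀ h2]; linarith
  rw [sQ_rec]
  have := Nat.mul_le_mul_right (sQ α (k + 1)) ha
  omega

/-- convergent data -/
structure Conv (α : ℝ) where
  Q : ℕ → ℕ
  P : ℕ → ℤ
  E : ℕ → ℝ
  Q0 : Q 0 = 0
  Q1 : Q 1 = 1
  Epos : ∀ k, 0 < E k
  Elt : ∀ k, E (k + 1) < E k
  signed : ∀ k, (Q k : ℝ) * α - P k = (-1) ^ (k + 1) * E k
  bez : ∀ k, (Q (k + 1) : ℝ) * E k + Q k * E (k + 1) = 1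
  cop : ∀ k, Nat.Coprime (Q k) (Q (k + 1))
  add : ∀ k, Q k + Q (k + 1) ≤ Q (k + 2)

noncomputable def conv (α : ℝ) (hα : Irrational α) : Conv α where
  Q := sQ α
  P := sP α
  E := sE α
  Q0 := rfl
  Q1 := rfl
  Epos := fun k => (s_pos α hα k).1
  Elt := fun k => (s_pos α hα k).2.2.1
  signed := fun k => (s_signed α k).1
  bez := s_bez α
  cop := s_cop α
  add := s_add α hα

namespace Conv

variable {α : ℝ} (X : Conv α)

theorem mono1 (k : ℕ) : X.Q k ≤ X.Q (k + 1) := by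
  match k with
  | 0 => rw [X.Q0]; exact Nat.zero_le _
  | (k + 1) => exact (Nat.le_add_left _ _).trans (X.add k)

theorem mono : Monotone X.Q := monotone_nat_of_le_succ X.mono1

theorem pos (k : ℕ) (hk : 1 ≤ k) : 0 < X.Q k := by
  have := X.mono hk
  rw [X.Q1] at this
  omega

theorem two_mul (k : ℕ) : 2 * X.Q k ≤ X.Q (k + 2) := by
  have h1 := X.add k
  have h2 := X.mono1 k
  omega

theorem E_le (k : ℕ) : X.Q (k + 1) * X.E k ≤ 1 := by
  have := X.bez k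
  have h1 : 0 ≤ (X.Q k : ℝ) * X.E (k + 1) := mul_nonneg (Nat.cast_nonneg _) (X.Epos _).le
  linarith

theorem E_lt (k : ℕ) (hk : 1 ≤ k) : X.Q (k + 1) * X.E k < 1 := by
  have := X.bez k
  have h0 : (0 : ℝ) < X.Q k := by exact_mod_cast X.pos k hk
  have h1 : 0 < (X.Q k : ℝ) * X.E (k + 1) := mul_pos h0 (X.Epos _)
  linarith

theorem E_ge (k : ℕ) : 1 ≤ 2 * (X.Q (k + 1) * X.E k) := by
  have h := X.bez k
  have h1 : (X.Q k : ℝ) ≤ X.Q (k + 1) := by exact_mod_cast X.mono1 k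
  have h2 := (X.Elt k).le
  have h3 : (X.Q k : ℝ) * X.E (k + 1) ≤ X.Q (k + 1) * X.E k :=
    mul_le_mul h1 h2 (X.Epos _).le (Nat.cast_nonneg _)
  linarith

/-- norm of multiples of the convergent denominators -/
theorem norm_le (k r : ℕ) : ‖(r * X.Q k) • (α : UnitAddCircle)‖ ≤ r * X.E k := by
  rw [← AddCircle.coe_nsmul, nsmul_eq_mul]
  have h1 : ((r * X.Q k : ℕ) : ℝ) * α = r * ((-1) ^ (k + 1) * X.E k) + ((r * X.P k : ℤ) : ℝ) := by
    have := X.signed k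
    push_cast
    linear_combination (r : ℝ) * this
  rw [h1, AddCircle.coe_add, coe_int, add_zero]
  refine (norm_coe_le _).trans ?_
  rw [abs_mul, abs_mul, abs_pow, abs_neg, abs_one, one_pow, one_mul, abs_of_pos (X.Epos k),
    abs_of_nonneg (Nat.cast_nonneg r)]

/-- two dimensional combinations -/
theorem norm_comb (k a b : ℕ) : ‖(a * X.Q (k + 1) + b * X.Q k) • (α : UnitAddCircle)‖
    ≤ |a * X.E (k + 1) - b * X.E k| := by
  rw [← AddCircle.coe_nsmul, nsmul_eq_mul]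
  have h1 : ((a * X.Q (k + 1) + b * X.Q k : ℕ) : ℝ) * α
      = (-1) ^ k * (a * X.E (k + 1) - b * X.E k) + ((a * X.P (k + 1) + b * X.P k : ℤ) : ℝ) := by
    have h2 := X.signed k
    have h3 := X.signed (k + 1)
    have e1 : ((-1 : ℝ)) ^ (k + 1 + 1) = (-1) ^ k := by ring
    have e2 : ((-1 : ℝ)) ^ (k + 1) = - (-1) ^ k := by ring
    rw [e1] at h3
    rw [e2] at h2
    push_cast
    linear_combination (a : ℝ) * h3 + b * h2
  rw [h1, AddCircle.coe_add, coe_int, add_zero]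
  refine (norm_coe_le _).trans ?_
  rw [abs_mul, abs_pow, abs_neg, abs_one, one_pow, one_mul]

/-- growth -/
theorem growth (k : ℕ) : k ≤ X.Q (k + 1) := by
  induction k using Nat.strong_induction_on with
  | _ k ih =>
    match k, ih with
    | 0, _ => omega
    | 1, _ => exact X.pos 2 (by norm_num)
    | (m + 2), ih =>
      have h1 : m + 1 ≤ X.Q (m + 2) := ih (m + 1) (by omega)
      have h2 : 0 < X.Q (m + 1) := X.pos (m + 1) (by omega)
      have h3 : X.Q (m + 1) + X.Q (m + 2) ≤ X.Q (m + 3) := X.add (m + 1)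
      show m + 2 ≤ X.Q (m + 3)
      omega

/-- inverse square tails -/
theorem sum_inv_sq (k n : ℕ) (hk : 1 ≤ k) :
    ∑ j ∈ Ico k n, (1 : ℝ) / (X.Q j : ℝ) ^ 2 ≤ 3 / (X.Q k : ℝ) ^ 2 := by
  have hg : ∀ j, 1 ≤ j → (1 : ℝ) / (X.Q j : ℝ) ^ 2
      ≤ 4 / 3 * (1 / (X.Q j : ℝ) ^ 2 + 1 / (X.Q (j + 1) : ℝ) ^ 2)
        - 4 / 3 * (1 / (X.Q (j + 1) : ℝ) ^ 2 + 1 / (X.Q (j + 2) : ℝ) ^ 2) := by
    intro j hj
    have h0 : (0 : ℝ) < X.Q j := by exact_mod_cast X.pos j hj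
    have h1 : 2 * (X.Q j : ℝ) ≤ X.Q (j + 2) := by exact_mod_cast X.two_mul j
    have h2 : 1 / (X.Q (j + 2) : ℝ) ^ 2 ≤ 1 / (4 * (X.Q j : ℝ) ^ 2) := by
      apply one_div_le_one_div_of_le (by positivity)
      nlinarith
    have h3 : 1 / (4 * (X.Q j : ℝ) ^ 2) = (1 / 4) * (1 / (X.Q j : ℝ) ^ 2) := by field_simp
    rw [h3] at h2
    linarith
  have htel : ∀ m, k ≤ m → ∑ j ∈ Ico k m, (1 : ℝ) / (X.Q j : ℝ) ^ 2
      ≤ 4 / 3 * (1 / (X.Q k : ℝ) ^ 2 + 1 / (X.Q (k + 1) : ℝ) ^ 2)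
        - 4 / 3 * (1 / (X.Q m : ℝ) ^ 2 + 1 / (X.Q (m + 1) : ℝ) ^ 2) := by
    intro m hm
    induction m, hm using Nat.le_induction with
    | base => simp
    | succ m hm ih =>
      rw [sum_Ico_succ_top hm]
      have := hg m (by omega)
      linarith
  have h0 : (0 : ℝ) < X.Q k := by exact_mod_cast X.pos k hk
  have h1 : 1 / (X.Q (k + 1) : ℝ) ^ 2 ≤ 1 / (X.Q k : ℝ) ^ 2 := by
    apply one_div_le_one_div_of_le (by positivity)
    apply pow_le_pow_left₀ h0.le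
    exact_mod_cast X.mono1 k
  have h3 : 3 / (X.Q k : ℝ) ^ 2 = 3 * (1 / (X.Q k : ℝ) ^ 2) := by ring
  have h4 : 0 ≤ 1 / (X.Q k : ℝ) ^ 2 := by positivity
  rcases le_total k n with hkn | hkn
  · refine (htel n hkn).trans ?_
    have : 0 ≤ 4 / 3 * (1 / (X.Q n : ℝ) ^ 2 + 1 / (X.Q (n + 1) : ℝ) ^ 2) := by positivity
    rw [h3]; linarith
  · rw [Ico_eq_empty (by omega), sum_empty]; positivity

theorem sum_inv (n : ℕ) : ∑ j ∈ Ico 1 n, (1 : ℝ) / (X.Q j : ℝ) ≤ 4 := by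
  have hg : ∀ j, 1 ≤ j → (1 : ℝ) / (X.Q j : ℝ)
      ≤ 2 * (1 / (X.Q j : ℝ) + 1 / (X.Q (j + 1) : ℝ))
        - 2 * (1 / (X.Q (j + 1) : ℝ) + 1 / (X.Q (j + 2) : ℝ)) := by
    intro j hj
    have h0 : (0 : ℝ) < X.Q j := by exact_mod_cast X.pos j hj
    have h1 : 2 * (X.Q j : ℝ) ≤ X.Q (j + 2) := by exact_mod_cast X.two_mul j
    have h2 : 1 / (X.Q (j + 2) : ℝ) ≤ 1 / (2 * (X.Q j : ℝ)) :=
      one_div_le_one_div_of_le (by positivity) h1
    have h3 : 1 / (2 * (X.Q j : ℝ)) = (1 / 2) * (1 / (X.Q j : ℝ)) := by field_simp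
    rw [h3] at h2
    linarith
  have htel : ∀ m, 1 ≤ m → ∑ j ∈ Ico 1 m, (1 : ℝ) / (X.Q j : ℝ)
      ≤ 2 * (1 / (X.Q 1 : ℝ) + 1 / (X.Q 2 : ℝ))
        - 2 * (1 / (X.Q m : ℝ) + 1 / (X.Q (m + 1) : ℝ)) := by
    intro m hm
    induction m, hm using Nat.le_induction with
    | base => simp
    | succ m hm ih =>
      rw [sum_Ico_succ_top hm]
      have := hg m (by omega)
      linarith
  have h1 : 1 / (X.Q 2 : ℝ) ≤ 1 := by
    rw [div_le_one (by exact_mod_cast X.pos 2 (by norm_num))]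
    exact_mod_cast X.pos 2 (by norm_num)
  rcases le_total 1 n with hkn | hkn
  · refine (htel n hkn).trans ?_
    have : 0 ≤ 2 * (1 / (X.Q n : ℝ) + 1 / (X.Q (n + 1) : ℝ)) := by positivity
    have h5 : (1 : ℝ) / (X.Q 1 : ℝ) = 1 := by rw [X.Q1]; norm_num
    rw [h5]
    linarith
  · rw [Ico_eq_empty (by omega), sum_empty]; norm_num

end Conv

end Pool.Agent.Helper74.KV
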