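import Mathlib
import Pool.Agent.Helper74.KV.K5

set_option autoImplicit false

namespace Pool.Agent.Helper74.KV

open Finset MeasureTheory

/-- average order of `φ(r)/r` from below -/
theorem sum_phi (n : ℕ) : (n : ℝ) / 2 ≤ ∑ r ∈ Ico 1 (n + 1), (Nat.totient r : ℝ) / r := by
  rcases Nat.eq_zero_or_pos n with h0 | h0
  · subst h0; simp
  have hnR : (0 : ℝ) < n := by exact_mod_cast h0
  have h1 : ∑ r ∈ Ico 1 (n + 1), (r : ℝ) = n * (n + 1) / 2 := by
    have : ∀ m : ℕ, ∑ r ∈ Ico 1 (m + 1), (r : ℝ) = m * (m + 1) / 2 := by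
      intro m
      induction m with
      | zero => simp
      | succ m ih => rw [sum_Ico_succ_top (by omega), ih]; push_cast; ring
    exact this n
  have h2 : ∑ r ∈ Ico 1 (n + 1), (r : ℝ)
      = ∑ r ∈ Ico 1 (n + 1), ∑ d ∈ Ico 1 (n + 1), (if d ∣ r then (Nat.totient d : ℝ) else 0) := by
    apply sum_congr rfl
    intro r hr
    rw [mem_Ico] at hr
    rw [← sum_filter]
    have h3 : (Ico 1 (n + 1)).filter (fun d => d ∣ r) = r.divisors := by
      ext d
      simp only [mem_filter, mem_Ico, Nat.mem_divisors]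
      constructor
      · rintro ⟨_, h⟩; exact ⟨h, by omega⟩
      · rintro ⟨h, hr0⟩
        have := Nat.le_of_dvd (by omega) h
        have := Nat.pos_of_dvd_of_pos h (by omega)
        exact ⟨by omega, h⟩
    rw [h3]
    exact_mod_cast (Nat.sum_totient r).symm
  have h3 : ∀ d ∈ Ico 1 (n + 1), ∑ r ∈ Ico 1 (n + 1), (if d ∣ r then (Nat.totient d : ℝ) else 0)
      ≤ n * ((Nat.totient d : ℝ) / d) := by
    intro d hd
    rw [mem_Ico] at hd
    rw [← sum_filter, sum_const, nsmul_eq_mul]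
    have hc : ((Ico 1 (n + 1)).filter (fun r => d ∣ r)).card = n / d := by
      have h4 : (Ico 1 (n + 1)).filter (fun r => d ∣ r) = (Ioc 0 n).filter (fun r => d ∣ r) := by
        ext r; simp only [mem_filter, mem_Ico, mem_Ioc]; constructor <;> rintro ⟨h, h'⟩ <;> exact ⟨by omega, h'⟩
      rw [h4, Nat.Ioc_filter_dvd_card_eq_div]
    rw [hc]
    have hdR : (0 : ℝ) < d := by exact_mod_cast (by omega : 0 < d)
    have h5 : ((n / d : ℕ) : ℝ) ≤ (n : ℝ) / d := Nat.cast_div_le
    calc ((n / d : ℕ) : ℝ) * (Nat.totient d : ℝ) ≤ (n : ℝ) / d * Nat.totient d :=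
          mul_le_mul_of_nonneg_right h5 (Nat.cast_nonneg _)
      _ = n * ((Nat.totient d : ℝ) / d) := by ring
  have h4 : (n : ℝ) * (n + 1) / 2 ≤ n * ∑ r ∈ Ico 1 (n + 1), (Nat.totient r : ℝ) / r := by
    rw [← h1, h2, sum_comm, mul_sum]
    exact sum_le_sum h3
  have h5 : (n : ℝ) * (n / 2) ≤ n * ∑ r ∈ Ico 1 (n + 1), (Nat.totient r : ℝ) / r := by
    refine le_trans ?_ h4
    nlinarith
  exact le_of_mul_le_mul_left h5 hnR

/-- weighted version -/
theorem sum_phi_weight (f : ℕ → ℝ) (hf0 : ∀ r, 0 ≤ f r) (hf : ∀ r, 1 ≤ r → f (r + 1) ≤ f r) (n : ℕ) :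
    (1 / 2) * ∑ r ∈ Ico 1 (n + 1), f r ≤ ∑ r ∈ Ico 1 (n + 1), f r * ((Nat.totient r : ℝ) / r) := by
  set y : ℕ → ℝ := fun r => (Nat.totient r : ℝ) / r - 1 / 2 with hy
  have hY : ∀ m, 0 ≤ ∑ r ∈ Ico 1 (m + 1), y r := by
    intro m
    simp only [hy]
    rw [sum_sub_distrib, sum_const, Nat.card_Ico, nsmul_eq_mul]
    have := sum_phi m
    have : ((m + 1 - 1 : ℕ) : ℝ) = m := by simp
    rw [this]; linarith
  have key : ∀ m, f m * ∑ r ∈ Ico 1 (m + 1), y r ≤ ∑ r ∈ Ico 1 (m + 1), f r * y r := by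
    intro m
    induction m with
    | zero => simp
    | succ m ih =>
      rw [sum_Ico_succ_top (by omega), sum_Ico_succ_top (by omega) (fun r => f r * y r), mul_add]
      rcases Nat.eq_zero_or_pos m with h0 | h0
      · subst h0; simp
      · have h1 := hf m h0
        have h2 := mul_le_mul_of_nonneg_right h1 (hY m)
        linarith
  have h1 := key n
  have h2 : 0 ≤ f n * ∑ r ∈ Ico 1 (n + 1), y r := mul_nonneg (hf0 n) (hY n)
  have h3 : ∑ r ∈ Ico 1 (n + 1), f r * y r = ∑ r ∈ Ico 1 (n + 1), f r * ((Nat.totient r : ℝ) / r)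
      - (1 / 2) * ∑ r ∈ Ico 1 (n + 1), f r := by
    rw [mul_sum, ← sum_sub_distrib]
    apply sum_congr rfl
    intro r _
    simp only [hy]
    ring
  linarith

/-- numerators coprime to `r` -/
def NN (r Q : ℕ) : Finset ℕ := (range (r * Q)).filter (fun s => Nat.Coprime r s)

theorem NN_card (r Q : ℕ) (hr : 0 < r) : (NN r Q).card = Nat.totient r * Q := by
  unfold NN
  induction Q with
  | zero => simp
  | succ Q ih =>
    have h1 : (range (r * (Q + 1))).filter (fun s => Nat.Coprime r s)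
        = (range (r * Q)).filter (fun s => Nat.Coprime r s)
          ∪ (Ico (r * Q) (r * Q + r)).filter (fun s => Nat.Coprime r s) := by
      rw [← filter_union]
      congr 1
      ext x
      simp only [mem_range, mem_union, mem_Ico]
      have : r * (Q + 1) = r * Q + r := by ring
      omega
    rw [h1, card_union_of_disjoint, ih, Nat.filter_coprime_Ico_eq_totient]
    · ring
    · apply disjoint_filter_filter
      rw [disjoint_left]
      intro x hx hx2
      rw [mem_range] at hx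
      rw [mem_Ico] at hx2
      omega

theorem pt_eq_iff (q q' s s' : ℕ) (h : s < q) (h' : s' < q') (hpt : pt q s = pt q' s') :
    s * q' = s' * q := by
  unfold pt at hpt
  have hq : (0 : ℝ) < q := by exact_mod_cast (by omega : 0 < q)
  have hq' : (0 : ℝ) < q' := by exact_mod_cast (by omega : 0 < q')
  rw [AddCircle.coe_eq_coe_iff_of_mem_Ico (a := 0)] at hpt
  · rw [div_eq_div_iff hq.ne' hq'.ne'] at hpt
    exact_mod_cast hpt
  · constructor
    · positivity
    · rw [zero_add, div_lt_one hq]; exact_mod_cast h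
  · constructor
    · positivity
    · rw [zero_add, div_lt_one hq']; exact_mod_cast h'

/-- uniqueness of the relative reduced form -/
theorem NN_inj (Q r r' s s' : ℕ) (hr : 0 < r) (hr' : 0 < r') (hs : s ∈ NN r Q)
    (hs' : s' ∈ NN r' Q) (h : pt (r * Q) s = pt (r' * Q) s') : r = r' ∧ s = s' := by
  unfold NN at hs hs'
  rw [mem_filter, mem_range] at hs hs'
  have h1 := pt_eq_iff _ _ _ _ hs.1 hs'.1 h
  have hQ : 0 < Q := Nat.pos_of_ne_zero (by rintro rfl; simp at hs)
  have h2 : s * r' = s' * r := by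
    have : (s * r') * Q = (s' * r) * Q := by linarith
    exact Nat.eq_of_mul_eq_mul_right hQ this
  have d1 : r ∣ r' := by
    apply hs.2.dvd_of_dvd_mul_left
    exact ⟨s', by rw [h2]; ring⟩
  have d2 : r' ∣ r := by
    apply hs'.2.dvd_of_dvd_mul_left
    exact ⟨s, by rw [← h2]; ring⟩
  have h3 := Nat.dvd_antisymm d1 d2
  refine ⟨h3, ?_⟩
  rw [h3] at h2
  exact Nat.eq_of_mul_eq_mul_right hr' h2

theorem mem_co (q q' : ℕ) (N N' : Finset ℕ) (x : ℕ × ℕ) :
    x ∈ co q q' N N' ↔ x.1 ∈ N ∧ x.2 ∈ N' ∧ pt q x.1 = pt q' x.2 := by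
  unfold co
  simp only [mem_filter, mem_product]
  tauto

theorem co_swap (q q' : ℕ) (N N' : Finset ℕ) : (co q q' N N').card = (co q' q N' N).card := by
  apply card_bij (fun x _ => (x.2, x.1))
  · intro x hx
    rw [mem_co] at hx ⊢
    exact ⟨hx.2.1, hx.1, hx.2.2.symm⟩
  · intro x _ y _ hxy
    simp only [Prod.mk.injEq] at hxy
    exact Prod.ext hxy.2 hxy.1
  · intro y hy
    rw [mem_co] at hy
    exact ⟨(y.2, y.1), by rw [mem_co]; exact ⟨hy.2.1, hy.1, hy.2.2.symm⟩, rfl⟩

theorem co_same (Q r r' : ℕ) (hr : 0 < r) (hr' : 0 < r') :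
    (co (r * Q) (r' * Q) (NN r Q) (NN r' Q)).card ≤ if r = r' then r * Q else 0 := by
  split_ifs with h
  · subst h
    have : (co (r * Q) (r * Q) (NN r Q) (NN r Q)).card ≤ (range (r * Q)).card := by
      apply card_le_card_of_injOn (fun x => x.1)
      · intro x hx
        rw [mem_coe, mem_co] at hx
        have := hx.1
        unfold NN at this
        rw [mem_filter] at this
        exact this.1
      · intro x hx y hy hxy
        rw [mem_coe, mem_co] at hx hy
        have h1 := (NN_inj Q r r _ _ hr hr hx.1 hx.2.1 hx.2.2).2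
        have h2 := (NN_inj Q r r _ _ hr hr hy.1 hy.2.1 hy.2.2).2
        have h3 : x.1 = y.1 := hxy
        exact Prod.ext h3 (by rw [← h1, ← h2, h3])
    rwa [card_range] at this
  · rw [Nat.le_zero, card_eq_zero]
    ext x
    rw [mem_co]
    simp only [notMem_empty, iff_false]
    rintro ⟨h1, h2, h3⟩
    exact h (NN_inj Q r r' _ _ hr hr' h1 h2 h3).1

/-- coincidences across two levels -/
theorem co_cross (q Q' : ℕ) (N : Finset ℕ) (J' : Finset ℕ) (hJ' : ∀ r ∈ J', 0 < r) :
    ∑ r' ∈ J', (co q (r' * Q') N (NN r' Q')).card ≤ N.card := by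
  classical
  have h1 : ∑ r' ∈ J', (co q (r' * Q') N (NN r' Q')).card
      = (J'.sigma (fun r' => co q (r' * Q') N (NN r' Q'))).card := by rw [card_sigma]
  rw [h1]
  apply card_le_card_of_injOn (fun x => x.2.1)
  · intro x hx
    rw [mem_coe, mem_sigma, mem_co] at hx
    exact hx.2.1
  · intro x hx y hy hxy
    rw [mem_coe, mem_sigma, mem_co] at hx hy
    have h3 : x.2.1 = y.2.1 := hxy
    have h4 : pt (x.1 * Q') x.2.2 = pt (y.1 * Q') y.2.2 := by
      rw [← hx.2.2.2, ← hy.2.2.2, h3]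
    obtain ⟨e1, e2⟩ := NN_inj Q' x.1 y.1 _ _ (hJ' _ hx.1) (hJ' _ hy.1) hx.2.2.1 hy.2.2.1 h4
    obtain ⟨x1, x2, x3⟩ := x
    obtain ⟨y1, y2, y3⟩ := y
    simp only at e1 e2 h3
    subst e1 e2 h3
    rfl

end Pool.Agent.Helper74.KV
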