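import Mathlib
import Pool.Agent.Helper74.KV.K6

set_option autoImplicit false

namespace Pool.Agent.Helper74.KV

open Finset MeasureTheory

theorem sum_split (𝒦 : Finset ℕ) (f : ℕ → ℕ → ℝ) (hsymm : ∀ k k', f k k' = f k' k) :
    ∑ k ∈ 𝒦, ∑ k' ∈ 𝒦, f k k' = ∑ k ∈ 𝒦, f k k
      + 2 * ∑ k ∈ 𝒦, ∑ k' ∈ 𝒦.filter (fun k' => k < k'), f k k' := by
  have h1 : ∀ k k', f k k' = (if k = k' then f k k' else 0) + (if k < k' then f k k' else 0)
      + (if k' < k then f k k' else 0) := by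
    intro k k'
    rcases lt_trichotomy k k' with h | h | h
    · rw [if_neg h.ne, if_pos h, if_neg (by omega)]; ring
    · subst h; simp
    · rw [if_neg h.ne', if_neg (by omega), if_pos h]; ring
  have h2 : ∑ k ∈ 𝒦, ∑ k' ∈ 𝒦, f k k' = ∑ k ∈ 𝒦, ∑ k' ∈ 𝒦, (if k = k' then f k k' else 0)
      + ∑ k ∈ 𝒦, ∑ k' ∈ 𝒦, (if k < k' then f k k' else 0)
      + ∑ k ∈ 𝒦, ∑ k' ∈ 𝒦, (if k' < k then f k k' else 0) := by
    rw [← sum_add_distrib, ← sum_add_distrib]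
    apply sum_congr rfl
    intro k _
    rw [← sum_add_distrib, ← sum_add_distrib]
    exact sum_congr rfl (fun k' _ => h1 k k')
  have h3 : ∑ k ∈ 𝒦, ∑ k' ∈ 𝒦, (if k' < k then f k k' else 0)
      = ∑ k ∈ 𝒦, ∑ k' ∈ 𝒦, (if k < k' then f k k' else 0) := by
    rw [sum_comm]
    apply sum_congr rfl
    intro k _
    apply sum_congr rfl
    intro k' _
    rw [hsymm]
  have h4 : ∑ k ∈ 𝒦, ∑ k' ∈ 𝒦, (if k = k' then f k k' else 0) = ∑ k ∈ 𝒦, f k k := by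
    apply sum_congr rfl
    intro k hk
    rw [sum_ite_eq, if_pos hk]
  have h5 : ∑ k ∈ 𝒦, ∑ k' ∈ 𝒦, (if k < k' then f k k' else 0)
      = ∑ k ∈ 𝒦, ∑ k' ∈ 𝒦.filter (fun k' => k < k'), f k k' := by
    apply sum_congr rfl
    intro k _
    rw [sum_filter]
  rw [h2, h3, h4, h5]; ring

theorem levels (𝒦 : Finset ℕ) (J : ℕ → Finset ℕ) (Q : ℕ → ℕ) (ρ : ℕ → ℕ → ℝ) (c1 C : ℝ)
    (hc1 : 0 < c1) (hC : 0 ≤ C) (hQ : ∀ k ∈ 𝒦, 0 < Q k) (hJ : ∀ k ∈ 𝒦, ∀ r ∈ J k, 0 < r)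
    (hρ0 : ∀ k ∈ 𝒦, ∀ r ∈ J k, 0 ≤ ρ k r) (hρ1 : ∀ k ∈ 𝒦, ∀ r ∈ J k, ρ k r * (2 * Q k) ≤ 1)
    (hS : 1 ≤ ∑ k ∈ 𝒦, ∑ r ∈ J k, ρ k r)
    (h1 : c1 * ∑ k ∈ 𝒦, ∑ r ∈ J k, ρ k r ≤ ∑ k ∈ 𝒦, ∑ r ∈ J k, ρ k r * ((Nat.totient r : ℝ) / r))
    (hcross : ∑ k ∈ 𝒦, (∑ r ∈ J k, ((r : ℝ) * Q k)) * ∑ k' ∈ 𝒦.filter (fun k' => k < k'), 1 / (Q k' : ℝ) ^ 2
      ≤ C * ∑ k ∈ 𝒦, ∑ r ∈ J k, ρ k r) :
    4 * c1 ^ 2 / (8 + 2 * (1 + C)) ≤ volume.real (⋃ k ∈ 𝒦, ⋃ r ∈ J k, ⋃ s ∈ NN r (Q k),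
      Metric.closedBall (pt (r * Q k) s) (ρ k r / ((r * Q k : ℕ) : ℝ))) := by
  have hlem := lemG (𝒦.sigma J) (fun x : (Σ _ : ℕ, ℕ) => x.2 * Q x.1) (fun x => ρ x.1 x.2)
    (fun x => NN x.2 (Q x.1))
    (fun x hx => Nat.mul_pos (hJ _ (mem_sigma.1 hx).1 _ (mem_sigma.1 hx).2) (hQ _ (mem_sigma.1 hx).1))
    (fun x _ => filter_subset _ _)
    (fun x hx => hρ0 _ (mem_sigma.1 hx).1 _ (mem_sigma.1 hx).2)
    (fun x hx => by
      have h2 := hρ1 _ (mem_sigma.1 hx).1 _ (mem_sigma.1 hx).2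
      have h3 := hρ0 _ (mem_sigma.1 hx).1 _ (mem_sigma.1 hx).2
      have h4 : (1 : ℝ) ≤ Q x.1 := by exact_mod_cast hQ _ (mem_sigma.1 hx).1
      nlinarith)
    c1 (1 + C) hc1 (by linarith)
    (by rw [sum_sigma]; exact hS)
    (by
      rw [sum_sigma, sum_sigma]
      refine h1.trans (le_of_eq ?_)
      apply sum_congr rfl
      intro k hk
      apply sum_congr rfl
      intro r hr
      show ρ k r * ((Nat.totient r : ℝ) / r) = ρ k r * ((NN r (Q k)).card : ℝ) / ((r * Q k : ℕ) : ℝ)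
      rw [NN_card r (Q k) (hJ k hk r hr)]
      have hrR : (r : ℝ) ≠ 0 := by exact_mod_cast (hJ k hk r hr).ne'
      have hQR : (Q k : ℝ) ≠ 0 := by exact_mod_cast (hQ k hk).ne'
      push_cast
      field_simp)
    (by
      -- coincidences
      set f : ℕ → ℕ → ℝ := fun k k' => ∑ r ∈ J k, ∑ r' ∈ J k',
        min (ρ k r / ((r * Q k : ℕ) : ℝ)) (ρ k' r' / ((r' * Q k' : ℕ) : ℝ))
          * ((co (r * Q k) (r' * Q k') (NN r (Q k)) (NN r' (Q k'))).card : ℝ) with hf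
      have e1 : ∑ i ∈ 𝒦.sigma J, ∑ j ∈ 𝒦.sigma J, min (ρ i.1 i.2 / ((i.2 * Q i.1 : ℕ) : ℝ))
            (ρ j.1 j.2 / ((j.2 * Q j.1 : ℕ) : ℝ))
            * ((co (i.2 * Q i.1) (j.2 * Q j.1) (NN i.2 (Q i.1)) (NN j.2 (Q j.1))).card : ℝ)
          = ∑ k ∈ 𝒦, ∑ k' ∈ 𝒦, f k k' := by
        rw [sum_sigma]
        apply sum_congr rfl
        intro k _
        have : ∀ r ∈ J k, ∑ j ∈ 𝒦.sigma J, min (ρ k r / ((r * Q k : ℕ) : ℝ))
            (ρ j.1 j.2 / ((j.2 * Q j.1 : ℕ) : ℝ))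
            * ((co (r * Q k) (j.2 * Q j.1) (NN r (Q k)) (NN j.2 (Q j.1))).card : ℝ)
            = ∑ k' ∈ 𝒦, ∑ r' ∈ J k', min (ρ k r / ((r * Q k : ℕ) : ℝ))
            (ρ k' r' / ((r' * Q k' : ℕ) : ℝ))
            * ((co (r * Q k) (r' * Q k') (NN r (Q k)) (NN r' (Q k'))).card : ℝ) := by
          intro r _
          rw [sum_sigma]
        show ∑ r ∈ J k, ∑ j ∈ 𝒦.sigma J, min (ρ k r / ((r * Q k : ℕ) : ℝ))
            (ρ j.1 j.2 / ((j.2 * Q j.1 : ℕ) : ℝ))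
            * ((co (r * Q k) (j.2 * Q j.1) (NN r (Q k)) (NN j.2 (Q j.1))).card : ℝ) = _
        rw [sum_congr rfl this, sum_comm]
      have hsymm : ∀ k k', f k k' = f k' k := by
        intro k k'
        simp only [hf]
        rw [sum_comm]
        apply sum_congr rfl
        intro r' _
        apply sum_congr rfl
        intro r _
        rw [min_comm, co_swap]
      rw [e1, sum_split 𝒦 f hsymm]
      have e2 : ∑ k ∈ 𝒦, f k k ≤ ∑ k ∈ 𝒦, ∑ r ∈ J k, ρ k r := by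
        apply sum_le_sum
        intro k hk
        simp only [hf]
        apply sum_le_sum
        intro r hr
        have hr0 := hJ k hk r hr
        have hq : (0 : ℝ) < ((r * Q k : ℕ) : ℝ) := by exact_mod_cast Nat.mul_pos hr0 (hQ k hk)
        have : ∀ r' ∈ J k, min (ρ k r / ((r * Q k : ℕ) : ℝ)) (ρ k r' / ((r' * Q k : ℕ) : ℝ))
          * ((co (r * Q k) (r' * Q k) (NN r (Q k)) (NN r' (Q k))).card : ℝ)
          ≤ if r = r' then ρ k r else 0 := by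
          intro r' hr'
          have hc := co_same (Q k) r r' hr0 (hJ k hk r' hr')
          split_ifs with hrr
          · rw [if_pos hrr] at hc
            have h2 : ((co (r * Q k) (r' * Q k) (NN r (Q k)) (NN r' (Q k))).card : ℝ)
              ≤ ((r * Q k : ℕ) : ℝ) := by exact_mod_cast hc
            have h3 : 0 ≤ ρ k r / ((r * Q k : ℕ) : ℝ) := div_nonneg (hρ0 k hk r hr) hq.le
            calc _ ≤ (ρ k r / ((r * Q k : ℕ) : ℝ)) * ((r * Q k : ℕ) : ℝ) :=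
                  mul_le_mul (min_le_left _ _) h2 (Nat.cast_nonneg _) h3
              _ = ρ k r := by field_simp
          · rw [if_neg hrr, Nat.le_zero] at hc
            rw [hc]; simp
        refine (sum_le_sum this).trans ?_
        rw [sum_ite_eq, if_pos hr]
      have e3 : 2 * ∑ k ∈ 𝒦, ∑ k' ∈ 𝒦.filter (fun k' => k < k'), f k k'
          ≤ ∑ k ∈ 𝒦, (∑ r ∈ J k, ((r : ℝ) * Q k)) * ∑ k' ∈ 𝒦.filter (fun k' => k < k'), 1 / (Q k' : ℝ) ^ 2 := by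
        rw [mul_sum]
        apply sum_le_sum
        intro k hk
        rw [mul_sum, mul_sum]
        apply sum_le_sum
        intro k' hk'
        rw [mem_filter] at hk'
        have hQ' : (0 : ℝ) < Q k' := by exact_mod_cast hQ k' hk'.1
        simp only [hf]
        have h5 : ∀ r ∈ J k, ∑ r' ∈ J k', min (ρ k r / ((r * Q k : ℕ) : ℝ)) (ρ k' r' / ((r' * Q k' : ℕ) : ℝ))
            * ((co (r * Q k) (r' * Q k') (NN r (Q k)) (NN r' (Q k'))).card : ℝ)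
            ≤ (1 / (2 * (Q k' : ℝ) ^ 2)) * ((r : ℝ) * Q k) := by
          intro r hr
          have h6 : ∀ r' ∈ J k', min (ρ k r / ((r * Q k : ℕ) : ℝ)) (ρ k' r' / ((r' * Q k' : ℕ) : ℝ))
            * ((co (r * Q k) (r' * Q k') (NN r (Q k)) (NN r' (Q k'))).card : ℝ)
            ≤ (1 / (2 * (Q k' : ℝ) ^ 2))
              * ((co (r * Q k) (r' * Q k') (NN r (Q k)) (NN r' (Q k'))).card : ℝ) := by
            intro r' hr'
            apply mul_le_mul_of_nonneg_right _ (Nat.cast_nonneg _)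
            refine (min_le_right _ _).trans ?_
            have hr'0 : (1 : ℝ) ≤ r' := by exact_mod_cast hJ k' hk'.1 r' hr'
            have h7 := hρ1 k' hk'.1 r' hr'
            have h8 := hρ0 k' hk'.1 r' hr'
            push_cast
            rw [div_le_div_iff₀ (by positivity) (by positivity)]
            have h9 : ρ k' r' * (2 * (Q k' : ℝ) ^ 2) = (ρ k' r' * (2 * Q k')) * Q k' := by ring
            rw [h9]
            calc (ρ k' r' * (2 * Q k')) * Q k' ≤ 1 * Q k' := mul_le_mul_of_nonneg_right h7 hQ'.le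
              _ ≤ 1 * (r' * Q k') := by nlinarith
          refine (sum_le_sum h6).trans ?_
          rw [← mul_sum]
          apply mul_le_mul_of_nonneg_left _ (by positivity)
          have h10 := co_cross (r * Q k) (Q k') (NN r (Q k)) (J k') (hJ k' hk'.1)
          have h11 : (NN r (Q k)).card ≤ r * Q k := by
            have := card_le_card (filter_subset (fun s => Nat.Coprime r s) (range (r * Q k)))
            rwa [card_range] at this
          exact_mod_cast h10.trans h11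
        have h12 := sum_le_sum h5
        rw [← mul_sum] at h12
        have h13 : (∑ r ∈ J k, ((r : ℝ) * Q k)) * (1 / (Q k' : ℝ) ^ 2)
            = 2 * ((1 / (2 * (Q k' : ℝ) ^ 2)) * ∑ r ∈ J k, ((r : ℝ) * Q k)) := by
          generalize ∑ r ∈ J k, ((r : ℝ) * Q k) = Z
          field_simp
        rw [h13]
        linarith
      have e4 : (1 + C) * ∑ i ∈ 𝒦.sigma J, ρ i.1 i.2
          = ∑ k ∈ 𝒦, ∑ r ∈ J k, ρ k r + C * ∑ k ∈ 𝒦, ∑ r ∈ J k, ρ k r := by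
        rw [sum_sigma]; ring
      rw [e4]
      linarith)
  have hU : (⋃ i ∈ 𝒦.sigma J, ⋃ s ∈ NN i.2 (Q i.1),
      Metric.closedBall (pt (i.2 * Q i.1) s) (ρ i.1 i.2 / ((i.2 * Q i.1 : ℕ) : ℝ)))
      = ⋃ k ∈ 𝒦, ⋃ r ∈ J k, ⋃ s ∈ NN r (Q k),
      Metric.closedBall (pt (r * Q k) s) (ρ k r / ((r * Q k : ℕ) : ℝ)) := by
    ext x
    simp only [Set.mem_iUnion, mem_sigma, exists_prop, Sigma.exists]
    constructor
    · rintro ⟨k, r, ⟨hk, hr⟩, s, hs⟩; exact ⟨k, hk, r, hr, s, hs⟩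
    · rintro ⟨k, hk, r, hr, s, hs⟩; exact ⟨k, r, ⟨hk, hr⟩, s, hs⟩
  rw [hU] at hlem
  exact hlem

/-- points of the balls are approximated -/
theorem ball_approx (q s : ℕ) (hq : 0 < q) (ρ : ℝ) (x : UnitAddCircle)
    (hx : x ∈ Metric.closedBall (pt q s) (ρ / q)) : ‖q • x‖ ≤ ρ := by
  have hqR : (0 : ℝ) < q := by exact_mod_cast hq
  have h0 : q • pt q s = 0 := by
    unfold pt
    rw [← AddCircle.coe_nsmul, nsmul_eq_mul]
    have : (q : ℝ) * ((s : ℝ) / q) = ((s : ℤ) : ℝ) := by push_cast; field_simp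
    rw [this]; exact coe_int _
  have h1 : q • x = q • (x - pt q s) := by rw [nsmul_sub, h0, sub_zero]
  rw [h1]
  refine norm_nsmul_le.trans ?_
  rw [Metric.mem_closedBall, dist_eq_norm, le_div_iff₀ hqR] at hx
  linarith

end Pool.Agent.Helper74.KV
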