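import Mathlib
import Pool.Agent.Helper74.KV.K7

set_option autoImplicit false

namespace Pool.Agent.Helper74.KV

open Finset MeasureTheory

namespace Conv

variable {α : ℝ} (X : Conv α) (ψ : ℕ → ℝ)

/-- length of level `k` -/
noncomputable def R (k : ℕ) : ℕ := by
  classical
  exact Nat.findGreatest (fun r => r * X.Q k < X.Q (k + 1) ∧ r * X.E k < ψ (r * X.Q k)) (X.Q (k + 1))

noncomputable def rho (k r : ℕ) : ℝ := min (ψ (r * X.Q k)) (1 / X.Q k) / 2

noncomputable def mass (k : ℕ) : ℝ := ∑ r ∈ Ico 1 (X.R ψ k + 1), X.rho ψ k r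

section

variable (hanti : Antitone ψ) (hpos : ∀ q, 0 < ψ q)

include hpos in
theorem R_spec (k : ℕ) : (X.R ψ k) * X.Q k < X.Q (k + 1) ∧ (X.R ψ k) * X.E k < ψ (X.R ψ k * X.Q k) := by
  classical
  have h := Nat.findGreatest_spec (P := fun r => r * X.Q k < X.Q (k + 1) ∧ r * X.E k < ψ (r * X.Q k))
    (m := 0) (n := X.Q (k + 1)) (Nat.zero_le _) (by
      constructor
      · rw [zero_mul]; exact X.pos (k + 1) (by omega)
      · simpa using hpos 0)
  exact h

include hanti hpos in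
theorem R_le (k r : ℕ) (hr : r ≤ X.R ψ k) : r * X.Q k < X.Q (k + 1) ∧ r * X.E k < ψ (r * X.Q k) := by
  obtain ⟨h1, h2⟩ := X.R_spec ψ hpos k
  have h3 : r * X.Q k ≤ X.R ψ k * X.Q k := Nat.mul_le_mul_right _ hr
  refine ⟨by omega, ?_⟩
  have h4 : (r : ℝ) * X.E k ≤ X.R ψ k * X.E k :=
    mul_le_mul_of_nonneg_right (by exact_mod_cast hr) (X.Epos k).le
  exact h4.trans_lt (h2.trans_le (hanti h3))

include hpos in
theorem R_max (k : ℕ) (hk : 1 ≤ k) :
    ¬ ((X.R ψ k + 1) * X.Q k < X.Q (k + 1) ∧ ((X.R ψ k + 1 : ℕ) : ℝ) * X.E k < ψ ((X.R ψ k + 1) * X.Q k)) := by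
  classical
  obtain ⟨h1, _⟩ := X.R_spec ψ hpos k
  have hQ := X.pos k hk
  have hle : X.R ψ k + 1 ≤ X.Q (k + 1) := by
    have := Nat.le_mul_of_pos_right (X.R ψ k) hQ
    omega
  have := Nat.findGreatest_is_greatest (P := fun r => r * X.Q k < X.Q (k + 1) ∧ r * X.E k < ψ (r * X.Q k))
    (n := X.Q (k + 1)) (k := X.R ψ k + 1) (by
      show Nat.findGreatest _ _ < X.R ψ k + 1
      unfold R
      exact Nat.lt_succ_self _) hle
  exact this

include hpos in
theorem rho_nonneg (k r : ℕ) : 0 ≤ X.rho ψ k r := by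
  unfold rho
  have := hpos (r * X.Q k)
  have h2 : 0 ≤ 1 / (X.Q k : ℝ) := by positivity
  have : 0 ≤ min (ψ (r * X.Q k)) (1 / X.Q k) := le_min this.le h2
  linarith

include hanti in
theorem rho_anti (k r : ℕ) : X.rho ψ k (r + 1) ≤ X.rho ψ k r := by
  unfold rho
  have : ψ ((r + 1) * X.Q k) ≤ ψ (r * X.Q k) := hanti (Nat.mul_le_mul_right _ (by omega))
  have := min_le_min_right (1 / (X.Q k : ℝ)) this
  linarith

theorem rho_le1 (k r : ℕ) (hk : 1 ≤ k) : X.rho ψ k r * (2 * X.Q k) ≤ 1 := by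
  have hQ : (0 : ℝ) < X.Q k := by exact_mod_cast X.pos k hk
  unfold rho
  have := min_le_right (ψ (r * X.Q k)) (1 / (X.Q k : ℝ))
  have h2 := mul_le_mul_of_nonneg_right this hQ.le
  have h3 : 1 / (X.Q k : ℝ) * X.Q k = 1 := by field_simp
  linarith

include hpos in
theorem rho_lt (k r : ℕ) : X.rho ψ k r < ψ (r * X.Q k) := by
  unfold rho
  have := hpos (r * X.Q k)
  have h1 := min_le_left (ψ (r * X.Q k)) (1 / (X.Q k : ℝ))
  linarith

include hanti hpos in
theorem R_sq_le (k : ℕ) (hk : 1 ≤ k) : (X.R ψ k : ℝ) ^ 2 ≤ 4 * X.mass ψ k * X.Q (k + 1) := by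
  obtain ⟨h1, h2⟩ := X.R_spec ψ hpos k
  have hQ : (0 : ℝ) < X.Q k := by exact_mod_cast X.pos k hk
  have hQ' : (0 : ℝ) < X.Q (k + 1) := by exact_mod_cast X.pos (k + 1) (by omega)
  set R := X.R ψ k with hR
  have hE := X.Epos k
  have hterm : ∀ r ∈ Ico 1 (R + 1), (R * X.E k) / 2 ≤ X.rho ψ k r := by
    intro r hr
    rw [mem_Ico] at hr
    unfold rho
    apply div_le_div_of_nonneg_right _ (by norm_num)
    apply le_min
    · exact h2.le.trans (hanti (Nat.mul_le_mul_right _ (by omega)))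
    · rw [le_div_iff₀ hQ]
      have h3 : (R : ℝ) * X.Q k ≤ X.Q (k + 1) := by exact_mod_cast h1.le
      have h4 := mul_le_mul_of_nonneg_right h3 hE.le
      have h5 := X.E_le k
      nlinarith
  have h3 : (R : ℝ) * ((R * X.E k) / 2) ≤ X.mass ψ k := by
    unfold mass
    have := sum_le_sum hterm
    rw [sum_const, Nat.card_Ico, nsmul_eq_mul] at this
    simpa using this
  have h4 := X.E_ge k
  have h5 : (R : ℝ) ^ 2 * 1 ≤ (R : ℝ) ^ 2 * (2 * (X.Q (k + 1) * X.E k)) :=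
    mul_le_mul_of_nonneg_left h4 (sq_nonneg _)
  have h6 : (R : ℝ) ^ 2 * (2 * (X.Q (k + 1) * X.E k)) = 4 * (R * ((R * X.E k) / 2)) * X.Q (k + 1) := by ring
  have h7 := mul_le_mul_of_nonneg_right h3 hQ'.le
  nlinarith

include hpos in
theorem mass_nonneg (k : ℕ) : 0 ≤ X.mass ψ k := sum_nonneg (fun r _ => X.rho_nonneg ψ hpos k r)

include hanti hpos in
theorem case_two (hdiv : ¬ Summable (X.mass ψ)) (K : ℕ) :
    1 / 34 ≤ volume.real (UU ψ (α : UnitAddCircle) K) := by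
  set K0 := K + 1 with hK0
  -- choose the range of levels
  obtain ⟨K1, hK1⟩ : ∃ K1, 1 ≤ ∑ k ∈ Ico K0 K1, X.mass ψ k := by
    by_contra hcon
    push Not at hcon
    apply hdiv
    apply summable_of_sum_range_le (c := ∑ k ∈ range K0, X.mass ψ k + 1) (X.mass_nonneg ψ hpos)
    intro n
    rcases le_total n K0 with h | h
    · have h1 : ∑ k ∈ range n, X.mass ψ k ≤ ∑ k ∈ range K0, X.mass ψ k :=
        sum_le_sum_of_subset_of_nonneg (range_subset_range.2 h) (fun k _ _ => X.mass_nonneg ψ hpos k)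
      linarith
    · rw [← sum_range_add_sum_Ico _ h]
      have := (hcon n).le
      linarith
  have hl := levels (Ico K0 K1) (fun k => Ico 1 (X.R ψ k + 1)) X.Q (X.rho ψ) (1 / 2) 12 (by norm_num)
    (by norm_num)
    (fun k hk => X.pos k (by rw [mem_Ico] at hk; omega))
    (fun k _ r hr => by rw [mem_Ico] at hr; omega)
    (fun k _ r _ => X.rho_nonneg ψ hpos k r)
    (fun k hk r _ => X.rho_le1 ψ k r (by rw [mem_Ico] at hk; omega))
    hK1
    (by
      rw [mul_sum]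
      apply sum_le_sum
      intro k _
      exact sum_phi_weight (X.rho ψ k) (X.rho_nonneg ψ hpos k) (fun r _ => X.rho_anti ψ hanti k r) (X.R ψ k))
    (by
      rw [mul_sum]
      apply sum_le_sum
      intro k hk
      rw [mem_Ico] at hk
      have hk1 : 1 ≤ k := by omega
      have hQ : (0 : ℝ) < X.Q k := by exact_mod_cast X.pos k hk1
      have hQ' : (0 : ℝ) < X.Q (k + 1) := by exact_mod_cast X.pos (k + 1) (by omega)
      have hQQ : (X.Q k : ℝ) ≤ X.Q (k + 1) := by exact_mod_cast X.mono1 k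
      have e1 : (Ico K0 K1).filter (fun k' => k < k') = Ico (k + 1) K1 := by
        ext x; simp only [mem_filter, mem_Ico]; omega
      rw [e1]
      have h1 := X.sum_inv_sq (k + 1) K1 (by omega)
      have h2 : ∑ r ∈ Ico 1 (X.R ψ k + 1), ((r : ℝ) * X.Q k) ≤ (X.R ψ k : ℝ) ^ 2 * X.Q k := by
        have : ∀ r ∈ Ico 1 (X.R ψ k + 1), ((r : ℝ) * X.Q k) ≤ (X.R ψ k : ℝ) * X.Q k := by
          intro r hr
          rw [mem_Ico] at hr
          apply mul_le_mul_of_nonneg_right _ hQ.le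
          exact_mod_cast (by omega : r ≤ X.R ψ k)
        refine (sum_le_sum this).trans ?_
        rw [sum_const, Nat.card_Ico, nsmul_eq_mul]
        apply le_of_eq
        push_cast
        ring
      have h3 := X.R_sq_le ψ hanti hpos k hk1
      have hm := X.mass_nonneg ψ hpos k
      calc (∑ r ∈ Ico 1 (X.R ψ k + 1), ((r : ℝ) * X.Q k)) * ∑ j ∈ Ico (k + 1) K1, 1 / (X.Q j : ℝ) ^ 2
          ≤ ((X.R ψ k : ℝ) ^ 2 * X.Q k) * (3 / (X.Q (k + 1) : ℝ) ^ 2) :=
            mul_le_mul h2 h1 (sum_nonneg (fun j _ => by positivity)) (by positivity)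
        _ ≤ ((4 * X.mass ψ k * X.Q (k + 1)) * X.Q (k + 1)) * (3 / (X.Q (k + 1) : ℝ) ^ 2) := by
            apply mul_le_mul_of_nonneg_right _ (by positivity)
            exact mul_le_mul h3 hQQ hQ.le (by positivity)
        _ = 12 * X.mass ψ k := by field_simp; ring)
  have hsub : (⋃ k ∈ Ico K0 K1, ⋃ r ∈ Ico 1 (X.R ψ k + 1), ⋃ s ∈ NN r (X.Q k),
      Metric.closedBall (pt (r * X.Q k) s) (X.rho ψ k r / ((r * X.Q k : ℕ) : ℝ)))
      ⊆ UU ψ (α : UnitAddCircle) K := by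
    intro x hx
    simp only [Set.mem_iUnion, exists_prop, mem_Ico] at hx
    obtain ⟨k, hk, r, hr, s, _, hx⟩ := hx
    have hk1 : 1 ≤ k := by omega
    have hQ := X.pos k hk1
    have hq : 0 < r * X.Q k := Nat.mul_pos (by omega) hQ
    refine ⟨r * X.Q k, ?_, hq, ?_, ?_⟩
    · have h1 := X.growth K
      have h2 : X.Q (K + 1) ≤ X.Q k := X.mono (by omega)
      have h3 := Nat.le_mul_of_pos_left (X.Q k) (by omega : 0 < r)
      omega
    · exact (X.norm_le k r).trans_lt (X.R_le ψ hanti hpos k r (by omega)).2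
    · exact (ball_approx _ _ hq _ x hx).trans_lt (X.rho_lt ψ hpos k r)
  have hfin := hl.trans (measureReal_mono hsub)
  norm_num at hfin ⊢
  exact hfin

theorem sum_div_block (Q : ℕ) (hQ : 0 < Q) (f : ℕ → ℝ) (n : ℕ) :
    ∑ m ∈ Ico Q ((n + 1) * Q), f (m / Q) = Q * ∑ r ∈ Ico 1 (n + 1), f r := by
  induction n with
  | zero => simp
  | succ n ih =>
    have h1 : Q ≤ (n + 1) * Q := Nat.le_mul_of_pos_left Q (by omega)
    have h2 : (n + 1) * Q ≤ (n + 1 + 1) * Q := Nat.mul_le_mul_right Q (by omega)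
    rw [← sum_Ico_consecutive _ h1 h2, ih, sum_Ico_succ_top (show 1 ≤ n + 1 by omega) f, mul_add]
    congr 1
    have h3 : ∀ m ∈ Ico ((n + 1) * Q) ((n + 1 + 1) * Q), f (m / Q) = f (n + 1) := by
      intro m hm
      rw [mem_Ico] at hm
      congr 1
      rw [Nat.div_eq_iff hQ]
      have : (n + 1 + 1) * Q = (n + 1) * Q + Q := by ring
      omega
    rw [sum_congr rfl h3, sum_const, Nat.card_Ico, nsmul_eq_mul]
    congr 2
    have : (n + 1 + 1) * Q = (n + 1) * Q + Q := by ring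
    omega

include hanti hpos in
theorem type_two (k : ℕ) (hk : 1 ≤ k) :
    ∑ n ∈ Ico (4 * X.Q k) (4 * X.Q (k + 1)), (if ψ n * X.Q k < 4 then ψ n ^ 2 else 0)
      ≤ 544 * X.mass ψ k + 128 * (1 / X.Q (k + 1)) := by
  have hQn := X.pos k hk
  have hQ : (0 : ℝ) < X.Q k := by exact_mod_cast hQn
  have hQ' : (0 : ℝ) < X.Q (k + 1) := by exact_mod_cast X.pos (k + 1) (by omega)
  set R := X.R ψ k with hR
  have hm := X.mass_nonneg ψ hpos k
  have hmax := X.R_max ψ hpos k hk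
  rw [← hR] at hmax
  have hpt : ∀ n ∈ Ico (4 * X.Q k) (4 * X.Q (k + 1)), (if ψ n * X.Q k < 4 then ψ n ^ 2 else 0)
      ≤ (if n < (R + 1) * X.Q k then (32 / X.Q k) * X.rho ψ k (n / X.Q k) else 0)
        + 16 * ((R : ℝ) + 1) ^ 2 / (X.Q (k + 1) : ℝ) ^ 2 := by
    intro n hn
    rw [mem_Ico] at hn
    have hn0 := hpos n
    split_ifs with h1 h2 h2
    · have h3 : ψ n ≤ ψ ((n / X.Q k) * X.Q k) := hanti (Nat.div_mul_le_self _ _)
      have h4 : ψ n < 4 / X.Q k := by rw [lt_div_iff₀ hQ]; exact h1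
      have h5 : ψ n ≤ 8 * X.rho ψ k (n / X.Q k) := by
        unfold rho
        have : ψ n / 4 ≤ min (ψ ((n / X.Q k) * X.Q k)) (1 / X.Q k) := by
          apply le_min
          · linarith
          · have : 4 / (X.Q k : ℝ) = 4 * (1 / X.Q k) := by ring
            linarith
        linarith
      have h6 : ψ n ^ 2 ≤ (32 / X.Q k) * X.rho ψ k (n / X.Q k) := by
        calc ψ n ^ 2 = ψ n * ψ n := sq _
          _ ≤ (4 / X.Q k) * (8 * X.rho ψ k (n / X.Q k)) := mul_le_mul h4.le h5 hn0.le (by positivity)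
          _ = _ := by ring
      have h7 : 0 ≤ 16 * ((R : ℝ) + 1) ^ 2 / (X.Q (k + 1) : ℝ) ^ 2 := by positivity
      linarith
    · push Not at h2
      have h3 : ψ n ≤ ψ ((R + 1) * X.Q k) := hanti h2
      have hR0 : (0 : ℝ) ≤ R := Nat.cast_nonneg _
      have h4 : ψ n ≤ 4 * ((R : ℝ) + 1) / X.Q (k + 1) := by
        by_cases hc : (R + 1) * X.Q k < X.Q (k + 1)
        · have h5 : ¬ (((R + 1 : ℕ) : ℝ) * X.E k < ψ ((R + 1) * X.Q k)) := fun h => hmax ⟨hc, h⟩
          push Not at h5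
          have h6 : X.E k ≤ 1 / X.Q (k + 1) := by
            rw [le_div_iff₀ hQ']
            have := X.E_le k
            linarith
          have h7 : ψ n ≤ ((R : ℝ) + 1) * (1 / X.Q (k + 1)) := by
            refine h3.trans (h5.trans ?_)
            push_cast
            exact mul_le_mul_of_nonneg_left h6 (by positivity)
          refine h7.trans ?_
          rw [mul_one_div]
          apply div_le_div_of_nonneg_right _ hQ'.le
          linarith
        · push Not at hc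
          have h4 : ψ n < 4 / X.Q k := by rw [lt_div_iff₀ hQ]; exact h1
          refine h4.le.trans ?_
          rw [div_le_div_iff₀ hQ hQ']
          have : (X.Q (k + 1) : ℝ) ≤ (R + 1) * X.Q k := by exact_mod_cast hc
          linarith
      calc ψ n ^ 2 ≤ (4 * ((R : ℝ) + 1) / X.Q (k + 1)) ^ 2 := pow_le_pow_left₀ hn0.le h4 2
        _ = 0 + 16 * ((R : ℝ) + 1) ^ 2 / (X.Q (k + 1) : ℝ) ^ 2 := by
            rw [div_pow, mul_pow]; norm_num
    · have h6 := X.rho_nonneg ψ hpos k (n / X.Q k)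
      positivity
    · positivity
  refine (sum_le_sum hpt).trans ?_
  rw [sum_add_distrib, sum_const, Nat.card_Ico, nsmul_eq_mul]
  have hA : ∑ n ∈ Ico (4 * X.Q k) (4 * X.Q (k + 1)),
      (if n < (R + 1) * X.Q k then (32 / (X.Q k : ℝ)) * X.rho ψ k (n / X.Q k) else 0)
      ≤ 32 * X.mass ψ k := by
    rw [← sum_filter]
    have hsub : (Ico (4 * X.Q k) (4 * X.Q (k + 1))).filter (fun n => n < (R + 1) * X.Q k)
        ⊆ Ico (X.Q k) ((R + 1) * X.Q k) := by
      intro n hn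
      rw [mem_filter, mem_Ico] at hn
      rw [mem_Ico]
      omega
    refine (sum_le_sum_of_subset_of_nonneg hsub (fun n _ _ => ?_)).trans ?_
    · have := X.rho_nonneg ψ hpos k (n / X.Q k)
      positivity
    · rw [sum_div_block (X.Q k) hQn (fun r => (32 / (X.Q k : ℝ)) * X.rho ψ k r) R]
      rw [← mul_sum]
      unfold mass
      rw [← hR]
      apply le_of_eq
      field_simp
  have hB : ((4 * X.Q (k + 1) - 4 * X.Q k : ℕ) : ℝ) * (16 * ((R : ℝ) + 1) ^ 2 / (X.Q (k + 1) : ℝ) ^ 2)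
      ≤ 512 * X.mass ψ k + 128 * (1 / X.Q (k + 1)) := by
    have h1 : ((4 * X.Q (k + 1) - 4 * X.Q k : ℕ) : ℝ) ≤ 4 * X.Q (k + 1) := by
      exact_mod_cast (Nat.sub_le _ _)
    have h2 := X.R_sq_le ψ hanti hpos k hk
    rw [← hR] at h2
    have h3 : ((R : ℝ) + 1) ^ 2 ≤ 2 * (4 * X.mass ψ k * X.Q (k + 1)) + 2 := by
      nlinarith [sq_nonneg ((R : ℝ) - 1)]
    calc ((4 * X.Q (k + 1) - 4 * X.Q k : ℕ) : ℝ) * (16 * ((R : ℝ) + 1) ^ 2 / (X.Q (k + 1) : ℝ) ^ 2)
        ≤ (4 * X.Q (k + 1)) * (16 * (2 * (4 * X.mass ψ k * X.Q (k + 1)) + 2) / (X.Q (k + 1) : ℝ) ^ 2) := by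
          apply mul_le_mul h1 _ (by positivity) (by positivity)
          apply div_le_div_of_nonneg_right _ (by positivity)
          linarith
      _ = 512 * X.mass ψ k + 128 * (1 / X.Q (k + 1)) := by field_simp; ring
  linarith

end

end Conv

end Pool.Agent.Helper74.KV
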