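import Mathlib
import Pool.Agent.Helper74.KV.K8

set_option autoImplicit false

namespace Pool.Agent.Helper74.KV

open Finset

/-- sum of reciprocals of prime factors -/
noncomputable def hh (q : ℕ) : ℝ := ∑ p ∈ q.primeFactors, 1 / (p : ℝ)

theorem hh_nonneg (q : ℕ) : 0 ≤ hh q := sum_nonneg (fun p _ => by positivity)

theorem hh_dvd (a b : ℕ) (h : a ∣ b) (hb : b ≠ 0) : hh a ≤ hh b :=
  sum_le_sum_of_subset_of_nonneg (Nat.primeFactors_mono h hb) (fun p _ _ => by positivity)

theorem inv_sq_sum (M : ℕ) : ∑ p ∈ Ico 2 (M + 1), 1 / ((p : ℝ)) ^ 2 ≤ 1 := by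
  rcases Nat.lt_or_ge M 1 with h | h
  · rw [Ico_eq_empty (by omega)]; simp
  · have h1 := sum_Ioc_inv_sq_le_sub (α := ℝ) (k := 1) (n := M) one_ne_zero h
    have h2 : Ioc 1 M = Ico 2 (M + 1) := by ext x; simp only [mem_Ioc, mem_Ico]; omega
    rw [h2] at h1
    have h3 : (0 : ℝ) ≤ ((M : ℕ) : ℝ)⁻¹ := by positivity
    simp only [one_div]
    norm_num at h1
    linarith

/-- average over an initial segment -/
theorem sum_hh (M : ℕ) : ∑ c ∈ Ico 1 (M + 1), hh c ≤ M := by
  have h1 : ∀ c ∈ Ico 1 (M + 1), hh c = ∑ p ∈ Ico 2 (M + 1), (if p.Prime ∧ p ∣ c then 1 / (p : ℝ) else 0) := by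
    intro c hc
    rw [mem_Ico] at hc
    unfold hh
    rw [← sum_filter]
    apply sum_congr _ (fun _ _ => rfl)
    ext p
    simp only [Nat.mem_primeFactors, mem_filter, mem_Ico]
    constructor
    · rintro ⟨h1, h2, _⟩
      have := Nat.le_of_dvd (by omega) h2
      exact ⟨⟨h1.two_le, by omega⟩, h1, h2⟩
    · rintro ⟨_, h1, h2⟩; exact ⟨h1, h2, by omega⟩
  rw [sum_congr rfl h1, sum_comm]
  have h2 : ∀ p ∈ Ico 2 (M + 1), ∑ c ∈ Ico 1 (M + 1), (if p.Prime ∧ p ∣ c then 1 / (p : ℝ) else 0)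
      ≤ M * (1 / (p : ℝ) ^ 2) := by
    intro p hp
    rw [mem_Ico] at hp
    have hpR : (0 : ℝ) < p := by exact_mod_cast (by omega : 0 < p)
    have h3 : ∑ c ∈ Ico 1 (M + 1), (if p.Prime ∧ p ∣ c then 1 / (p : ℝ) else 0)
        ≤ ∑ c ∈ Ico 1 (M + 1), (if p ∣ c then 1 / (p : ℝ) else 0) := by
      apply sum_le_sum
      intro c _
      split_ifs with h4 h5 h5
      · exact le_rfl
      · exact absurd h4.2 h5
      · positivity
      · exact le_rfl
    refine h3.trans ?_
    rw [← sum_filter, sum_const, nsmul_eq_mul]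
    have hc : ((Ico 1 (M + 1)).filter (fun r => p ∣ r)).card = M / p := by
      have h4 : (Ico 1 (M + 1)).filter (fun r => p ∣ r) = (Ioc 0 M).filter (fun r => p ∣ r) := by
        ext r; simp only [mem_filter, mem_Ico, mem_Ioc]; constructor <;> rintro ⟨h, h'⟩ <;> exact ⟨by omega, h'⟩
      rw [h4, Nat.Ioc_filter_dvd_card_eq_div]
    rw [hc]
    have h5 : ((M / p : ℕ) : ℝ) ≤ (M : ℝ) / p := Nat.cast_div_le
    calc ((M / p : ℕ) : ℝ) * (1 / p) ≤ (M : ℝ) / p * (1 / p) :=
          mul_le_mul_of_nonneg_right h5 (by positivity)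
      _ = M * (1 / (p : ℝ) ^ 2) := by field_simp
  refine (sum_le_sum h2).trans ?_
  rw [← mul_sum]
  have := inv_sq_sum M
  have hM : (0 : ℝ) ≤ M := Nat.cast_nonneg _
  nlinarith

/-- number of solutions of a linear congruence in an interval -/
theorem card_sol (w u t0 T p : ℕ) (hp : p.Prime) (hu : ¬ p ∣ u) :
    ((Ioc t0 (t0 + T)).filter (fun t => p ∣ w + t * u)).card ≤ T / p + 2 := by
  have hp0 : 0 < p := hp.pos
  have hmap : Set.MapsTo (fun t => t / p) ((Ioc t0 (t0 + T)).filter (fun t => p ∣ w + t * u))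
      (Icc (t0 / p) ((t0 + T) / p) : Finset ℕ) := by
    intro t ht
    rw [mem_coe, mem_filter, mem_Ioc] at ht
    rw [mem_coe, mem_Icc]
    exact ⟨Nat.div_le_div_right ht.1.1.le, Nat.div_le_div_right ht.1.2⟩
  have hinj : Set.InjOn (fun t => t / p) ((Ioc t0 (t0 + T)).filter (fun t => p ∣ w + t * u)) := by
    intro t ht t' ht' htt
    rw [mem_coe, mem_filter, mem_Ioc] at ht ht'
    simp only at htt
    have hcop : IsCoprime (p : ℤ) (u : ℤ) := Nat.isCoprime_iff_coprime.2 ((Nat.Prime.coprime_iff_not_dvd hp).2 hu)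
    have h1 : (p : ℤ) ∣ ((t : ℤ) - t') * u := by
      have a1 : (p : ℤ) ∣ ((w + t * u : ℕ) : ℤ) := by exact_mod_cast ht.2
      have a2 : (p : ℤ) ∣ ((w + t' * u : ℕ) : ℤ) := by exact_mod_cast ht'.2
      have := dvd_sub a1 a2
      have e : ((w + t * u : ℕ) : ℤ) - ((w + t' * u : ℕ) : ℤ) = ((t : ℤ) - t') * u := by push_cast; ring
      rwa [e] at this
    have h2 := hcop.dvd_of_dvd_mul_right h1
    have h3 : |(t : ℤ) - t'| < p := by
      have h1 := Nat.div_add_mod t p
      have h2 := Nat.div_add_mod t' p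
      have h3 := Nat.mod_lt t hp0
      have h4 := Nat.mod_lt t' hp0
      rw [htt] at h1
      rw [abs_lt]
      constructor <;> omega
    have := Int.eq_zero_of_abs_lt_dvd h2 h3
    omega
  have h := Finset.card_le_card_of_injOn _ hmap hinj
  rw [Nat.card_Icc] at h
  have h5 : (t0 + T) / p ≤ t0 / p + T / p + 1 := by
    rw [Nat.add_div hp0]
    split_ifs <;> omega
  revert h h5
  generalize (t0 + T) / p = A
  generalize t0 / p = B
  generalize T / p = C
  intro h h5
  omega

/-- average along a progression -/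
theorem ap_bound (w u t0 T l : ℕ) (hT : 1 ≤ T) (hpos : ∀ t ∈ Ioc t0 (t0 + T), 0 < w + t * u)
    (hl : ∀ t ∈ Ioc t0 (t0 + T), (w + t * u).primeFactors.card ≤ l) :
    ∑ t ∈ Ioc t0 (t0 + T), hh (w + t * u) ≤ T * hh (Nat.gcd w u) + 3 * T + l := by
  have hTR : (1 : ℝ) ≤ T := by exact_mod_cast hT
  have hg : Nat.gcd w u ≠ 0 := by
    intro h0
    rw [Nat.gcd_eq_zero_iff] at h0
    have := hpos (t0 + 1) (by rw [mem_Ioc]; omega)
    rw [h0.1, h0.2] at this
    simp at this
  have hpt : ∀ t ∈ Ioc t0 (t0 + T), hh (w + t * u)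
      ≤ (∑ p ∈ Ico 2 (T + 1), (if p.Prime ∧ p ∣ w + t * u then 1 / (p : ℝ) else 0)) + l / T := by
    intro t ht
    have h0 := hpos t ht
    have hlt := hl t ht
    set q := w + t * u
    unfold hh
    rw [← sum_filter_add_sum_filter_not q.primeFactors (fun p => p ≤ T)]
    apply add_le_add
    · rw [← sum_filter]
      apply sum_le_sum_of_subset_of_nonneg
      · intro p hp
        simp only [mem_filter, Nat.mem_primeFactors, mem_Ico] at hp ⊢
        exact ⟨⟨hp.1.1.two_le, by omega⟩, hp.1.1, hp.1.2.1⟩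
      · intro p _ _; positivity
    · have h1 : ∀ p ∈ q.primeFactors.filter (fun p => ¬ p ≤ T), 1 / (p : ℝ) ≤ 1 / T := by
        intro p hp
        rw [mem_filter] at hp
        apply one_div_le_one_div_of_le (by linarith)
        exact_mod_cast (by omega : T ≤ p)
      refine (sum_le_sum h1).trans ?_
      rw [sum_const, nsmul_eq_mul, mul_one_div]
      apply div_le_div_of_nonneg_right _ (by linarith)
      exact_mod_cast (card_filter_le _ _).trans hlt
  refine (sum_le_sum hpt).trans ?_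
  rw [sum_add_distrib, sum_comm, sum_const, Nat.card_Ioc, nsmul_eq_mul]
  have hN : ∀ p ∈ Ico 2 (T + 1), ∑ t ∈ Ioc t0 (t0 + T), (if p.Prime ∧ p ∣ w + t * u then 1 / (p : ℝ) else 0)
      ≤ (if p.Prime ∧ p ∣ Nat.gcd w u then (T : ℝ) * (1 / p) else 0) + 3 * T * (1 / (p : ℝ) ^ 2) := by
    intro p hp
    rw [mem_Ico] at hp
    have hpR : (0 : ℝ) < p := by exact_mod_cast (by omega : 0 < p)
    by_cases hprime : p.Prime
    · have h1 : ∑ t ∈ Ioc t0 (t0 + T), (if p.Prime ∧ p ∣ w + t * u then 1 / (p : ℝ) else 0)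
          = (((Ioc t0 (t0 + T)).filter (fun t => p ∣ w + t * u)).card : ℝ) * (1 / p) := by
        rw [← sum_filter, sum_const, nsmul_eq_mul]
        congr 3
        ext t
        simp [hprime]
      rw [h1]
      by_cases hu : p ∣ u
      · by_cases hw : p ∣ w
        · rw [if_pos ⟨hprime, Nat.dvd_gcd hw hu⟩]
          have h2 : (((Ioc t0 (t0 + T)).filter (fun t => p ∣ w + t * u)).card : ℝ) ≤ T := by
            have := card_filter_le (Ioc t0 (t0 + T)) (fun t => p ∣ w + t * u)
            rw [Nat.card_Ioc] at this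
            exact_mod_cast (by omega : ((Ioc t0 (t0 + T)).filter (fun t => p ∣ w + t * u)).card ≤ T)
          have h3 := mul_le_mul_of_nonneg_right h2 (by positivity : (0 : ℝ) ≤ 1 / p)
          have h4 : 0 ≤ 3 * T * (1 / (p : ℝ) ^ 2) := by positivity
          linarith
        · have h2 : (Ioc t0 (t0 + T)).filter (fun t => p ∣ w + t * u) = ∅ := by
            apply filter_eq_empty_iff.2
            intro t _ hd
            apply hw
            exact (Nat.dvd_add_left (Dvd.dvd.mul_left hu t)).1 hd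
          rw [h2]
          simp only [card_empty, Nat.cast_zero, zero_mul]
          positivity
      · have h2 := card_sol w u t0 T p hprime hu
        have h3 : (((Ioc t0 (t0 + T)).filter (fun t => p ∣ w + t * u)).card : ℝ) ≤ 3 * (T / p) := by
          have h4 : (((Ioc t0 (t0 + T)).filter (fun t => p ∣ w + t * u)).card : ℝ) ≤ ((T / p + 2 : ℕ) : ℝ) := by
            exact_mod_cast h2
          refine h4.trans ?_
          push_cast
          have h5 : ((T / p : ℕ) : ℝ) ≤ (T : ℝ) / p := Nat.cast_div_le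
          have h6 : (1 : ℝ) ≤ (T : ℝ) / p := by
            rw [le_div_iff₀ hpR, one_mul]
            exact_mod_cast (by omega : p ≤ T)
          linarith
        have h7 := mul_le_mul_of_nonneg_right h3 (by positivity : (0 : ℝ) ≤ 1 / p)
        have h8 : 3 * ((T : ℝ) / p) * (1 / p) = 3 * T * (1 / (p : ℝ) ^ 2) := by field_simp
        have h9 : (0 : ℝ) ≤ (if p.Prime ∧ p ∣ Nat.gcd w u then (T : ℝ) * (1 / p) else 0) := by
          split_ifs <;> positivity
        linarith
    · have : ∑ t ∈ Ioc t0 (t0 + T), (if p.Prime ∧ p ∣ w + t * u then 1 / (p : ℝ) else 0) = 0 := by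
        apply sum_eq_zero
        intro t _
        rw [if_neg (fun h => hprime h.1)]
      rw [this, if_neg (fun h => hprime h.1)]
      positivity
  have hfin := sum_le_sum hN
  rw [sum_add_distrib, ← mul_sum] at hfin
  have h1 : ∑ p ∈ Ico 2 (T + 1), (if p.Prime ∧ p ∣ Nat.gcd w u then (T : ℝ) * (1 / p) else 0)
      ≤ T * hh (Nat.gcd w u) := by
    rw [← sum_filter]
    unfold hh
    rw [mul_sum]
    apply sum_le_sum_of_subset_of_nonneg
    · intro p hp
      simp only [mem_filter, Nat.mem_primeFactors, mem_Ico] at hp ⊢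
      exact ⟨hp.2.1, hp.2.2, hg⟩
    · intro p _ _; positivity
  have h2 := inv_sq_sum T
  have h3 : 3 * (T : ℝ) * ∑ p ∈ Ico 2 (T + 1), 1 / ((p : ℝ)) ^ 2 ≤ 3 * T * 1 :=
    mul_le_mul_of_nonneg_left h2 (by positivity)
  have h4 : ((t0 + T - t0 : ℕ) : ℝ) * (l / T) = l := by
    have : t0 + T - t0 = T := by omega
    rw [this]; field_simp
  rw [h4]
  linarith

theorem one_sub_ge_exp (x : ℝ) (h0 : 0 ≤ x) (h1 : x ≤ 1 / 2) : Real.exp (-2 * x) ≤ 1 - x := by
  have hp : 0 < 1 - x := by linarith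
  rw [← Real.le_log_iff_exp_le hp]
  have h2 := Real.one_sub_inv_le_log_of_pos hp
  refine le_trans ?_ h2
  have h3 : (1 - x)⁻¹ ≤ 1 + 2 * x := by
    rw [inv_le_iff_one_le_mul₀ hp]
    nlinarith
  linarith

theorem totient_ge (q : ℕ) (_hq : 0 < q) (h : hh q ≤ 16) : Real.exp (-32) * q ≤ Nat.totient q := by
  have h1 := Nat.totient_eq_mul_prod_factors q
  have h2 : (Nat.totient q : ℝ) = q * ∏ p ∈ q.primeFactors, (1 - 1 / (p : ℝ)) := by
    have : ((Nat.totient q : ℚ) : ℝ) = ((q * ∏ p ∈ q.primeFactors, (1 - (p : ℚ)⁻¹) : ℚ) : ℝ) := by rw [h1]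
    push_cast at this
    rw [this]
    simp only [one_div]
  have h3 : Real.exp (-32) ≤ ∏ p ∈ q.primeFactors, (1 - 1 / (p : ℝ)) := by
    have h4 : ∏ p ∈ q.primeFactors, Real.exp (-2 * (1 / (p : ℝ))) ≤ ∏ p ∈ q.primeFactors, (1 - 1 / (p : ℝ)) := by
      apply prod_le_prod
      · intro p _; positivity
      · intro p hp
        have h5 : (2 : ℝ) ≤ p := by exact_mod_cast (Nat.prime_of_mem_primeFactors hp).two_le
        apply one_sub_ge_exp _ (by positivity)
        exact one_div_le_one_div_of_le (by norm_num) h5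
    refine le_trans ?_ h4
    rw [← Real.exp_sum, ← mul_sum]
    apply Real.exp_le_exp.2
    have : hh q = ∑ p ∈ q.primeFactors, 1 / (p : ℝ) := rfl
    rw [← this]
    linarith
  rw [h2, mul_comm]
  exact mul_le_mul_of_nonneg_left h3 (Nat.cast_nonneg _)

theorem card_primeFactors_le (q : ℕ) (hq : 0 < q) : q.primeFactors.card ≤ Nat.log 2 q := by
  apply Nat.le_log_of_pow_le (by norm_num)
  calc 2 ^ q.primeFactors.card = ∏ _p ∈ q.primeFactors, 2 := by rw [prod_const]
    _ ≤ ∏ p ∈ q.primeFactors, p := by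
        apply prod_le_prod'
        intro p hp
        exact (Nat.prime_of_mem_primeFactors hp).two_le
    _ ≤ q := Nat.le_of_dvd hq (Nat.prod_primeFactors_dvd q)

end Pool.Agent.Helper74.KV
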