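import Mathlib
import Pool.Agent.Helper74.KV.K9

set_option autoImplicit false

namespace Pool.Agent.Helper74.KV

open Finset MeasureTheory

theorem floor_half (x : ℝ) (hx : 1 ≤ x) : x / 2 ≤ (⌊x⌋₊ : ℝ) ∧ 1 ≤ ⌊x⌋₊ := by
  have h1 : 1 ≤ ⌊x⌋₊ := Nat.le_floor (by simpa using hx)
  have h2 : x < ⌊x⌋₊ + 1 := Nat.lt_floor_add_one x
  have h3 : (1 : ℝ) ≤ ⌊x⌋₊ := by exact_mod_cast h1
  exact ⟨by linarith, h1⟩

/-- good indices -/
noncomputable def goodset (α : ℝ) (n : ℕ) (δ : ℝ) : Finset ℕ := by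
  classical
  exact (Icc 1 n).filter (fun q => n < 4 * q ∧ ‖q • (α : UnitAddCircle)‖ < δ
    ∧ Real.exp (-32) * q ≤ Nat.totient q)

theorem mem_goodset (α : ℝ) (n : ℕ) (δ : ℝ) (q : ℕ) : q ∈ goodset α n δ ↔
    (1 ≤ q ∧ q ≤ n) ∧ n < 4 * q ∧ ‖q • (α : UnitAddCircle)‖ < δ ∧ Real.exp (-32) * q ≤ Nat.totient q := by
  unfold goodset
  rw [mem_filter, mem_Icc]

theorem avg_pairs (u v L1 L2 T M l : ℕ) (hcop : Nat.Coprime u v) (hT : L2 = L1 + T) (hT1 : 1 ≤ T)
    (hM1 : 1 ≤ M) (hL2T : (L2 : ℝ) ≤ 4 * T) (hlTM : (l : ℝ) ^ 2 ≤ T * M)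
    (hq1 : ∀ a ∈ Ioc L1 L2, ∀ b ∈ Icc 1 M, 0 < a * v + b * u)
    (hcard : ∀ a ∈ Ioc L1 L2, ∀ b ∈ Icc 1 M, (a * v + b * u).primeFactors.card ≤ l) :
    ∑ a ∈ Ioc L1 L2, ∑ b ∈ Icc 1 M, hh (a * v + b * u) ≤ 8 * (T * M) := by
  have hM0 : (0 : ℝ) ≤ M := Nat.cast_nonneg _
  have hT0 : (0 : ℝ) ≤ T := Nat.cast_nonneg _
  have hl0 : (0 : ℝ) ≤ l := Nat.cast_nonneg _
  have hIcc : Ioc 0 (0 + M) = Icc 1 M := by ext x; simp only [mem_Ioc, mem_Icc]; omega
  have hIoc : Ioc L1 (L1 + T) = Ioc L1 L2 := by rw [hT]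
  rcases le_total T M with hTM' | hTM'
  · -- sum over b inside
    have hlM : (l : ℝ) ≤ M := by
      have h3 : (T : ℝ) ≤ M := by exact_mod_cast hTM'
      apply le_of_pow_le_pow_left₀ two_ne_zero hM0
      refine hlTM.trans ?_
      rw [sq]
      exact mul_le_mul_of_nonneg_right h3 hM0
    have h3 : ∀ a ∈ Ioc L1 L2, ∑ b ∈ Icc 1 M, hh (a * v + b * u) ≤ M * hh a + 4 * M := by
      intro a ha
      have ha' := ha
      rw [mem_Ioc] at ha'
      have h4 := ap_bound (a * v) u 0 M l hM1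
        (fun t ht => hq1 a ha t (by rw [← hIcc]; exact ht))
        (fun t ht => hcard a ha t (by rw [← hIcc]; exact ht))
      rw [hIcc] at h4
      have h5 : Nat.gcd (a * v) u = Nat.gcd a u :=
        Nat.Coprime.gcd_mul_right_cancel a hcop.symm
      rw [h5] at h4
      have h6 : hh (Nat.gcd a u) ≤ hh a := hh_dvd _ _ (Nat.gcd_dvd_left _ _) (by omega)
      have h7 := mul_le_mul_of_nonneg_left h6 hM0
      linarith
    refine (sum_le_sum h3).trans ?_
    rw [sum_add_distrib, ← mul_sum, sum_const, Nat.card_Ioc, nsmul_eq_mul]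
    have h4 : ∑ a ∈ Ioc L1 L2, hh a ≤ L2 := by
      refine le_trans ?_ (sum_hh L2)
      apply sum_le_sum_of_subset_of_nonneg
      · intro x hx; rw [mem_Ioc] at hx; rw [mem_Ico]; omega
      · intro x _ _; exact hh_nonneg x
    have h5 : ((L2 - L1 : ℕ) : ℝ) = T := by rw [hT]; simp
    rw [h5]
    have h6 := mul_le_mul_of_nonneg_left (h4.trans hL2T) hM0
    have h7 : (M : ℝ) * (4 * T) = 4 * (T * M) := by ring
    have h8 : (T : ℝ) * (4 * M) = 4 * (T * M) := by ring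
    linarith
  · have hlT : (l : ℝ) ≤ T := by
      have h3 : (M : ℝ) ≤ T := by exact_mod_cast hTM'
      apply le_of_pow_le_pow_left₀ two_ne_zero hT0
      refine hlTM.trans ?_
      rw [sq]
      exact mul_le_mul_of_nonneg_left h3 hT0
    rw [sum_comm]
    have h3 : ∀ b ∈ Icc 1 M, ∑ a ∈ Ioc L1 L2, hh (a * v + b * u) ≤ T * hh b + 4 * T := by
      intro b hb
      have hb' := hb
      rw [mem_Icc] at hb'
      have h4 := ap_bound (b * u) v L1 T l hT1
        (fun t ht => by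
          have := hq1 t (by rw [← hIoc]; exact ht) b hb
          rw [add_comm]; exact this)
        (fun t ht => by
          have := hcard t (by rw [← hIoc]; exact ht) b hb
          rw [add_comm]; exact this)
      rw [hIoc] at h4
      have h5 : Nat.gcd (b * u) v = Nat.gcd b v :=
        Nat.Coprime.gcd_mul_right_cancel b hcop
      rw [h5] at h4
      have h6 : hh (Nat.gcd b v) ≤ hh b := hh_dvd _ _ (Nat.gcd_dvd_left _ _) (by omega)
      have h7 := mul_le_mul_of_nonneg_left h6 hT0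
      have h8 : ∑ a ∈ Ioc L1 L2, hh (a * v + b * u) = ∑ a ∈ Ioc L1 L2, hh (b * u + a * v) :=
        sum_congr rfl (fun a _ => by rw [add_comm])
      rw [h8]
      linarith
    refine (sum_le_sum h3).trans ?_
    rw [sum_add_distrib, ← mul_sum, sum_const, Nat.card_Icc, nsmul_eq_mul]
    have h4 : ∑ b ∈ Icc 1 M, hh b ≤ M := by
      refine le_trans (le_of_eq ?_) (sum_hh M)
      apply sum_congr _ (fun _ _ => rfl)
      ext x; simp only [mem_Icc, mem_Ico]; omega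
    have h5 : ((M + 1 - 1 : ℕ) : ℝ) = M := by simp
    rw [h5]
    have h6 := mul_le_mul_of_nonneg_left h4 hT0
    have h7 : (M : ℝ) * (4 * T) = 4 * (T * M) := by ring
    have h8 : 0 ≤ (T : ℝ) * M := by positivity
    linarith

/-- half of the pairs are good -/
theorem half_good (u v L1 L2 T M : ℕ) (hT : L2 = L1 + T)
    (havg : ∑ a ∈ Ioc L1 L2, ∑ b ∈ Icc 1 M, hh (a * v + b * u) ≤ 8 * (T * M)) :
    (T : ℝ) * M / 2 ≤ (((Ioc L1 L2) ×ˢ (Icc 1 M)).filter (fun x => hh (x.1 * v + x.2 * u) ≤ 16)).card := by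
  have hPPcard : (((Ioc L1 L2) ×ˢ (Icc 1 M)).card : ℝ) = T * M := by
    rw [card_product, Nat.card_Ioc, Nat.card_Icc]
    have : L2 - L1 = T := by omega
    rw [this]
    push_cast
    simp
  rw [← sum_product'] at havg
  generalize (Ioc L1 L2) ×ˢ (Icc 1 M) = PP at *
  have h4 := card_filter_add_card_filter_not (s := PP) (fun x => hh (x.1 * v + x.2 * u) ≤ 16)
  have e1 : ∑ x ∈ PP.filter (fun x => ¬ hh (x.1 * v + x.2 * u) ≤ 16), (16 : ℝ)
      ≤ ∑ x ∈ PP.filter (fun x => ¬ hh (x.1 * v + x.2 * u) ≤ 16), hh (x.1 * v + x.2 * u) := by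
    apply sum_le_sum
    intro x hx
    rw [mem_filter] at hx
    exact (not_le.1 hx.2).le
  have e2 : ∑ x ∈ PP.filter (fun x => ¬ hh (x.1 * v + x.2 * u) ≤ 16), hh (x.1 * v + x.2 * u)
      ≤ ∑ x ∈ PP, hh (x.1 * v + x.2 * u) :=
    sum_le_sum_of_subset_of_nonneg (filter_subset _ _) (fun x _ _ => hh_nonneg _)
  rw [sum_const, nsmul_eq_mul] at e1
  have h5 : ((PP.filter (fun x => hh (x.1 * v + x.2 * u) ≤ 16)).card : ℝ)
      + (PP.filter (fun x => ¬ hh (x.1 * v + x.2 * u) ≤ 16)).card = T * M := by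
    rw [← hPPcard]
    exact_mod_cast h4
  linarith

/-- injectivity of the two dimensional parametrisation -/
theorem inj_pairs (u v L1 L2 M : ℕ) (hcop : Nat.Coprime u v) (hv : 0 < v) (hMv : M < v) :
    Set.InjOn (fun x : ℕ × ℕ => x.1 * v + x.2 * u) ((Ioc L1 L2) ×ˢ (Icc 1 M) : Finset (ℕ × ℕ)) := by
  intro x hx y hy hxy
  rw [mem_coe, mem_product, mem_Ioc, mem_Icc] at hx hy
  have hxy' : x.1 * v + x.2 * u = y.1 * v + y.2 * u := hxy
  have e1 : ((x.1 : ℤ) - y.1) * v = ((y.2 : ℤ) - x.2) * u := by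
    have : ((x.1 * v + x.2 * u : ℕ) : ℤ) = ((y.1 * v + y.2 * u : ℕ) : ℤ) := by rw [hxy']
    push_cast at this
    linear_combination this
  have hcopZ : IsCoprime (v : ℤ) (u : ℤ) := Nat.isCoprime_iff_coprime.2 hcop.symm
  have hd : (v : ℤ) ∣ ((y.2 : ℤ) - x.2) := by
    apply hcopZ.dvd_of_dvd_mul_right
    exact ⟨(x.1 : ℤ) - y.1, by rw [← e1]; ring⟩
  have hlt : |(y.2 : ℤ) - x.2| < v := by
    rw [abs_lt]; constructor <;> omega
  have h0 := Int.eq_zero_of_abs_lt_dvd hd hlt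
  rw [h0, zero_mul] at e1
  have h3 : (x.1 : ℤ) - y.1 = 0 := by
    rcases mul_eq_zero.1 e1 with h | h
    · exact h
    · exfalso; have : v = 0 := by exact_mod_cast h
      omega
  exact Prod.ext (by omega) (by omega)

/-- the right basis at a given scale -/
theorem exists_basis {α : ℝ} (X : Conv α) (k n : ℕ) (hk : 1 ≤ k) (h1 : 4 * X.Q k ≤ n)
    (h2 : n < 4 * X.Q (k + 1)) (δ : ℝ) (hδ0 : 0 < δ) (hδ4 : 4 ≤ δ * X.Q k) :
    ∃ i : ℕ, (n : ℝ) < X.Q (i + 1) * X.Q (i + 2) * δ ∧ (X.Q i : ℝ) * X.Q (i + 1) * δ ≤ n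
      ∧ 4 * (X.Q (i + 1) : ℝ) ≤ n ∧ 4 ≤ δ * X.Q (i + 1) := by
  have hQk : (0 : ℝ) < X.Q k := by exact_mod_cast X.pos k hk
  have hn0 : (0 : ℝ) ≤ n := Nat.cast_nonneg _
  have hPk : (n : ℝ) < X.Q (k - 1 + 1) * X.Q (k - 1 + 2) * δ := by
    have e1 : k - 1 + 1 = k := by omega
    have e2 : k - 1 + 2 = k + 1 := by omega
    rw [e1, e2]
    have h3 : (n : ℝ) < 4 * X.Q (k + 1) := by exact_mod_cast h2
    have h4 : (0 : ℝ) ≤ X.Q (k + 1) := Nat.cast_nonneg _
    have h5 := mul_le_mul_of_nonneg_right hδ4 h4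
    have h6 : δ * X.Q k * X.Q (k + 1) = X.Q k * X.Q (k + 1) * δ := by ring
    linarith
  have hex : ∃ i, (n : ℝ) < X.Q (i + 1) * X.Q (i + 2) * δ := ⟨k - 1, hPk⟩
  classical
  obtain ⟨i, hi1, hmin⟩ : ∃ i, (n : ℝ) < X.Q (i + 1) * X.Q (i + 2) * δ ∧
      ∀ m < i, ¬ ((n : ℝ) < X.Q (m + 1) * X.Q (m + 2) * δ) :=
    ⟨Nat.find hex, Nat.find_spec hex, fun m hm => Nat.find_min hex hm⟩
  have hik : i + 1 ≤ k := by
    by_contra hcon
    exact hmin (k - 1) (by omega) hPk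
  refine ⟨i, hi1, ?_, ?_, ?_⟩
  · rcases Nat.eq_zero_or_pos i with h | h
    · rw [h, X.Q0]; simpa using hn0
    · have := hmin (i - 1) (by omega)
      have e1 : i - 1 + 1 = i := by omega
      have e2 : i - 1 + 2 = i + 1 := by omega
      rw [e1, e2] at this
      exact not_lt.1 this
  · have hvk : X.Q (i + 1) ≤ X.Q k := X.mono hik
    exact_mod_cast (by omega : 4 * X.Q (i + 1) ≤ n)
  · rcases Nat.eq_or_lt_of_le hik with h | h
    · rw [h]; exact hδ4
    · have h3 : X.Q (i + 2) ≤ X.Q k := X.mono (by omega)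
      have h3R : (X.Q (i + 2) : ℝ) ≤ X.Q k := by exact_mod_cast h3
      have h4 : (4 : ℝ) * X.Q k ≤ n := by exact_mod_cast h1
      have hv0 : (0 : ℝ) ≤ X.Q (i + 1) := Nat.cast_nonneg _
      have h6 : (X.Q (i + 1) * X.Q (i + 2) : ℝ) * δ ≤ (δ * X.Q (i + 1)) * X.Q k := by
        calc (X.Q (i + 1) * X.Q (i + 2) : ℝ) * δ = (δ * X.Q (i + 1)) * X.Q (i + 2) := by ring
          _ ≤ _ := mul_le_mul_of_nonneg_left h3R (by positivity)
      have h7 : 4 * (X.Q k : ℝ) ≤ (δ * X.Q (i + 1)) * X.Q k := by linarith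
      exact le_of_mul_le_mul_right h7 hQk

theorem count_good {α : ℝ} (X : Conv α) (k n : ℕ) (hk : 1 ≤ k) (h1 : 4 * X.Q k ≤ n)
    (h2 : n < 4 * X.Q (k + 1)) (δ : ℝ) (hδ0 : 0 < δ) (hδ4 : 4 ≤ δ * X.Q k) (hδ1 : δ < 1)
    (hlog : 32 * ((Nat.log 2 n : ℕ) : ℝ) ^ 2 ≤ n * δ) :
    (n : ℝ) * δ / 64 ≤ ((goodset α n δ).card : ℝ) := by
  obtain ⟨i, hi1, hi0, hA4', hB4⟩ := exists_basis X k n hk h1 h2 δ hδ0 hδ4
  have hvn : 0 < X.Q (i + 1) := X.pos (i + 1) (by omega)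
  have hcop : Nat.Coprime (X.Q i) (X.Q (i + 1)) := X.cop i
  have hE1 : X.Q (i + 2) * X.E (i + 1) ≤ 1 := X.E_le (i + 1)
  have hE0 : (X.Q (i + 1) : ℝ) * X.E i ≤ 1 := X.E_le i
  have hEi := X.Epos i
  have hEi1 := X.Epos (i + 1)
  have hnorm := X.norm_comb i
  generalize X.Q (i + 2) = v' at *
  generalize X.Q (i + 1) = v at *
  generalize X.Q i = u at *
  generalize X.E (i + 1) = E1 at *
  generalize X.E i = E0 at *
  clear hδ4 h1 h2 hk
  clear X
  have hn0 : (0 : ℝ) ≤ n := Nat.cast_nonneg _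
  have hvR : (0 : ℝ) < v := by exact_mod_cast hvn
  have huR : (0 : ℝ) ≤ u := Nat.cast_nonneg _
  obtain ⟨A, hA⟩ : ∃ A : ℝ, A * v = n := ⟨n / v, by field_simp⟩
  have hA4 : 4 ≤ A := by
    rw [← hA] at hA4'
    exact le_of_mul_le_mul_right hA4' hvR
  obtain ⟨hL1a, hL1b⟩ := floor_half (A / 4) (by linarith)
  obtain ⟨hMa, hMb⟩ := floor_half (δ * v / 2) (by linarith)
  have hL1lt : A / 4 < ⌊A / 4⌋₊ + 1 := Nat.lt_floor_add_one _
  have hL1le : (⌊A / 4⌋₊ : ℝ) ≤ A / 4 := Nat.floor_le (by linarith)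
  have hL2le : (⌊A / 2⌋₊ : ℝ) ≤ A / 2 := Nat.floor_le (by linarith)
  have hMle : (⌊δ * v / 2⌋₊ : ℝ) ≤ δ * v / 2 := Nat.floor_le (by linarith)
  have hL12 : 2 * ⌊A / 4⌋₊ ≤ ⌊A / 2⌋₊ := by
    apply Nat.le_floor
    push_cast
    linarith
  generalize ⌊A / 4⌋₊ = L1 at *
  generalize ⌊A / 2⌋₊ = L2 at *
  generalize ⌊δ * v / 2⌋₊ = M at *
  obtain ⟨T, hT⟩ : ∃ T, L2 = L1 + T := ⟨L2 - L1, by omega⟩
  have hT1 : 1 ≤ T := by omega
  have hTR : A / 8 ≤ T := by
    have : (L1 : ℝ) ≤ T := by exact_mod_cast (by omega : L1 ≤ T)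
    linarith
  have hL2T : (L2 : ℝ) ≤ 4 * T := by linarith
  have hMR : δ * v / 4 ≤ M := by linarith
  have hTM : (n : ℝ) * δ / 32 ≤ T * M := by
    have h3 : (A / 8) * (δ * v / 4) ≤ T * M := mul_le_mul hTR hMR (by positivity) (Nat.cast_nonneg _)
    have h4 : (A / 8) * (δ * v / 4) = (n : ℝ) * δ / 32 := by
      rw [← hA]; ring
    linarith
  have hlTM : ((Nat.log 2 n : ℕ) : ℝ) ^ 2 ≤ T * M := by linarith
  have hq1 : ∀ a ∈ Ioc L1 L2, ∀ b ∈ Icc 1 M, 0 < a * v + b * u ∧ a * v + b * u ≤ n ∧ n < 4 * (a * v + b * u) := by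
    intro a ha b hb
    rw [mem_Ioc] at ha
    rw [mem_Icc] at hb
    have haR : (L1 : ℝ) + 1 ≤ a := by exact_mod_cast ha.1
    have haR2 : (a : ℝ) ≤ L2 := by exact_mod_cast ha.2
    have hbR : (b : ℝ) ≤ M := by exact_mod_cast hb.2
    refine ⟨?_, ?_, ?_⟩
    · have := Nat.mul_pos (by omega : 0 < a) hvn
      omega
    · have h3 : (a : ℝ) * v ≤ n / 2 := by
        calc (a : ℝ) * v ≤ (A / 2) * v := mul_le_mul_of_nonneg_right (by linarith) hvR.le
          _ = n / 2 := by rw [← hA]; ring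
      have h4 : (b : ℝ) * u ≤ n / 2 := by
        calc (b : ℝ) * u ≤ (δ * v / 2) * u := mul_le_mul_of_nonneg_right (by linarith) huR
          _ = (u * v * δ) / 2 := by ring
          _ ≤ n / 2 := by linarith
      have h5 : ((a * v + b * u : ℕ) : ℝ) ≤ n := by push_cast; linarith
      exact_mod_cast h5
    · have h3 : (n : ℝ) < 4 * (a * v) := by
        have h6 : A / 4 < a := by linarith
        have := mul_lt_mul_of_pos_right h6 hvR
        have h7 : A / 4 * v = n / 4 := by rw [← hA]; ring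
        rw [h7] at this
        linarith
      have h4 : n < 4 * (a * v) := by exact_mod_cast h3
      omega
  have havg := avg_pairs u v L1 L2 T M (Nat.log 2 n) hcop hT hT1 hMb hL2T hlTM
    (fun a ha b hb => (hq1 a ha b hb).1)
    (fun a ha b hb => (card_primeFactors_le _ (hq1 a ha b hb).1).trans
      (Nat.log_mono_right (hq1 a ha b hb).2.1))
  have hGP := half_good u v L1 L2 T M hT havg
  have hMv : M < v := by
    have h3 : (M : ℝ) < v := by
      have : δ * v < 1 * v := mul_lt_mul_of_pos_right hδ1 hvR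
      linarith
    exact_mod_cast h3
  have hinj := inj_pairs u v L1 L2 M hcop hvn hMv
  have hle : (((Ioc L1 L2) ×ˢ (Icc 1 M)).filter (fun x => hh (x.1 * v + x.2 * u) ≤ 16)).card
      ≤ (goodset α n δ).card := by
    apply card_le_card_of_injOn (fun x => x.1 * v + x.2 * u)
    · intro x hx
      rw [mem_coe, mem_filter, mem_product] at hx
      obtain ⟨⟨ha, hb⟩, hhx⟩ := hx
      rw [mem_coe, mem_goodset]
      obtain ⟨q0, q1, q2⟩ := hq1 x.1 ha x.2 hb
      refine ⟨⟨q0, q1⟩, q2, ?_, totient_ge _ q0 hhx⟩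
      rw [mem_Ioc] at ha
      rw [mem_Icc] at hb
      refine (hnorm x.1 x.2).trans_lt ?_
      have haR2 : (x.1 : ℝ) ≤ L2 := by exact_mod_cast ha.2
      have hbR : (x.2 : ℝ) ≤ M := by exact_mod_cast hb.2
      have t1 : (x.1 : ℝ) * E1 ≤ δ / 2 := by
        have h3 : A ≤ v' * δ := by
          have h8 : A * v ≤ (v' * δ) * v := by
            rw [hA]
            have : v' * δ * v = v * v' * δ := by ring
            rw [this]; exact hi1.le
          exact le_of_mul_le_mul_right h8 hvR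
        calc (x.1 : ℝ) * E1 ≤ (v' * δ / 2) * E1 :=
              mul_le_mul_of_nonneg_right (by linarith) hEi1.le
          _ = δ / 2 * (v' * E1) := by ring
          _ ≤ δ / 2 * 1 := mul_le_mul_of_nonneg_left hE1 (by linarith)
          _ = δ / 2 := mul_one _
      have t2 : (x.2 : ℝ) * E0 ≤ δ / 2 := by
        calc (x.2 : ℝ) * E0 ≤ (δ * v / 2) * E0 :=
              mul_le_mul_of_nonneg_right (by linarith) hEi.le
          _ = δ / 2 * (v * E0) := by ring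
          _ ≤ δ / 2 * 1 := mul_le_mul_of_nonneg_left hE0 (by linarith)
          _ = δ / 2 := mul_one _
      have t3 : 0 ≤ (x.1 : ℝ) * E1 := by positivity
      have t4 : 0 ≤ (x.2 : ℝ) * E0 := by positivity
      rw [abs_lt]
      constructor <;> linarith
    · exact hinj.mono (by
        intro x hx
        rw [mem_coe, mem_filter] at hx
        exact hx.1)
  have hleR : ((((Ioc L1 L2) ×ˢ (Icc 1 M)).filter (fun x => hh (x.1 * v + x.2 * u) ≤ 16)).card : ℝ)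
      ≤ (goodset α n δ).card := by exact_mod_cast hle
  linarith

end Pool.Agent.Helper74.KV
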