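import Mathlib
import Pool.Agent.Helper74.KV.K10

set_option autoImplicit false

namespace Pool.Agent.Helper74.KV

open Finset MeasureTheory Filter Topology

/-- weights of the good indices -/
noncomputable def fG (ψ : ℕ → ℝ) (α : ℝ) (q : ℕ) : ℝ := by
  classical
  exact if 0 < q ∧ ‖q • (α : UnitAddCircle)‖ < ψ q ∧ Real.exp (-32) * q ≤ Nat.totient q then ψ q else 0

section

variable (ψ : ℕ → ℝ) (α : ℝ) (hanti : Antitone ψ) (hpos : ∀ q, 0 < ψ q)
  (htend : Tendsto ψ atTop (𝓝 0))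

include hpos in
theorem fG_nonneg (q : ℕ) : 0 ≤ fG ψ α q := by
  unfold fG
  split_ifs
  · exact (hpos q).le
  · exact le_rfl

include hpos htend in
theorem case_one (hdiv : ¬ Summable (fG ψ α)) (K : ℕ) :
    4 * Real.exp (-32) ^ 2 / (8 + 2 * (1 + 0)) ≤ volume.real (UU ψ (α : UnitAddCircle) K) := by
  classical
  have hev : ∀ᶠ q in atTop, ψ q < 1 := htend.eventually (gt_mem_nhds one_pos)
  obtain ⟨K1, hK1⟩ := eventually_atTop.1 hev
  set K0 := max K K1 with hK0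
  obtain ⟨N, hN⟩ : ∃ N, 2 ≤ ∑ q ∈ Ico K0 N, fG ψ α q := by
    by_contra hcon
    push Not at hcon
    apply hdiv
    apply summable_of_sum_range_le (c := ∑ k ∈ range K0, fG ψ α k + 2) (fG_nonneg ψ α hpos)
    intro n
    rcases le_total n K0 with h | h
    · have h1 : ∑ k ∈ range n, fG ψ α k ≤ ∑ k ∈ range K0, fG ψ α k :=
        sum_le_sum_of_subset_of_nonneg (range_subset_range.2 h) (fun k _ _ => fG_nonneg ψ α hpos k)
      linarith
    · rw [← sum_range_add_sum_Ico _ h]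
      have := (hcon n).le
      linarith
  set J := (Ico K0 N).filter (fun q => 0 < q ∧ ‖q • (α : UnitAddCircle)‖ < ψ q
    ∧ Real.exp (-32) * q ≤ Nat.totient q) with hJ
  have hJsum : ∑ q ∈ Ico K0 N, fG ψ α q = ∑ q ∈ J, ψ q := by
    rw [hJ, sum_filter]
    apply sum_congr rfl
    intro q _
    unfold fG
    rfl
  have hl := levels {0} (fun _ => J) (fun _ => 1) (fun _ q => ψ q / 2) (Real.exp (-32)) 0
    (Real.exp_pos _) le_rfl (fun _ _ => one_pos)
    (fun _ _ r hr => by rw [hJ, mem_filter] at hr; exact hr.2.1)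
    (fun _ _ r _ => by have := hpos r; linarith)
    (fun _ _ r hr => by
      rw [hJ, mem_filter, mem_Ico] at hr
      have := hK1 r (by have := le_max_right K K1; omega)
      push_cast
      linarith)
    (by
      rw [sum_singleton, ← sum_div, ← hJsum]
      linarith)
    (by
      rw [sum_singleton, sum_singleton, mul_sum]
      apply sum_le_sum
      intro q hq
      rw [hJ, mem_filter] at hq
      have hqR : (0 : ℝ) < q := by exact_mod_cast hq.2.1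
      have h1 : Real.exp (-32) ≤ (Nat.totient q : ℝ) / q := by
        rw [le_div_iff₀ hqR]; exact hq.2.2.2
      have h2 : 0 ≤ ψ q / 2 := by have := hpos q; linarith
      have := mul_le_mul_of_nonneg_left h1 h2
      linarith)
    (by
      rw [sum_singleton]
      have : ({0} : Finset ℕ).filter (fun k' => 0 < k') = ∅ := by decide
      rw [this]
      simp)
  have hsub : (⋃ k ∈ ({0} : Finset ℕ), ⋃ r ∈ J, ⋃ s ∈ NN r 1,
      Metric.closedBall (pt (r * 1) s) ((ψ r / 2) / ((r * 1 : ℕ) : ℝ)))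
      ⊆ UU ψ (α : UnitAddCircle) K := by
    intro x hx
    simp only [Set.mem_iUnion, exists_prop, mem_singleton, exists_eq_left] at hx
    obtain ⟨r, hr, s, _, hx⟩ := hx
    rw [hJ, mem_filter, mem_Ico] at hr
    rw [mul_one] at hx
    refine ⟨r, ?_, hr.2.1, hr.2.2.1, ?_⟩
    · have := le_max_left K K1; omega
    · have := ball_approx r s hr.2.1 _ x hx
      have := hpos r
      linarith
  exact hl.trans (measureReal_mono hsub)

/-- auxiliary upper bound -/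
noncomputable def t1 (n : ℕ) : ℝ := 64 / n * ∑ q ∈ Ico 1 (n + 1), (if n < 4 * q then fG ψ α q else 0)

include hpos in
theorem t1_nonneg (n : ℕ) : 0 ≤ t1 ψ α n := by
  unfold t1
  apply mul_nonneg (by positivity)
  apply sum_nonneg
  intro q _
  split_ifs
  · exact fG_nonneg ψ α hpos q
  · exact le_rfl

include hpos in
theorem t1_sum (N : ℕ) : ∑ n ∈ Ico 1 N, t1 ψ α n ≤ 192 * ∑ q ∈ Ico 1 N, fG ψ α q := by
  have h1 : ∀ n ∈ Ico 1 N, t1 ψ α n = ∑ q ∈ Ico 1 N, (if q ≤ n ∧ n < 4 * q then fG ψ α q * (64 / n) else 0) := by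
    intro n hn
    rw [mem_Ico] at hn
    unfold t1
    rw [mul_sum, ← sum_filter]
    have e1 : ∑ q ∈ Ico 1 (n + 1), 64 / (n : ℝ) * (if n < 4 * q then fG ψ α q else 0)
        = ∑ q ∈ (Ico 1 (n + 1)).filter (fun q => n < 4 * q), fG ψ α q * (64 / n) := by
      rw [sum_filter]
      apply sum_congr rfl
      intro q _
      split_ifs
      · ring
      · ring
    rw [e1]
    apply sum_congr _ (fun _ _ => rfl)
    ext q
    simp only [mem_filter, mem_Ico]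
    omega
  rw [sum_congr rfl h1, sum_comm, mul_sum]
  apply sum_le_sum
  intro q hq
  rw [mem_Ico] at hq
  have hqR : (0 : ℝ) < q := by exact_mod_cast (by omega : 0 < q)
  have hf := fG_nonneg ψ α hpos q
  rw [← sum_filter]
  have h2 : ∀ n ∈ (Ico 1 N).filter (fun n => q ≤ n ∧ n < 4 * q), fG ψ α q * (64 / (n : ℝ)) ≤ fG ψ α q * (64 / q) := by
    intro n hn
    rw [mem_filter] at hn
    apply mul_le_mul_of_nonneg_left _ hf
    apply div_le_div_of_nonneg_left (by norm_num) hqR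
    exact_mod_cast hn.2.1
  refine (sum_le_sum h2).trans ?_
  rw [sum_const, nsmul_eq_mul]
  have h3 : ((Ico 1 N).filter (fun n => q ≤ n ∧ n < 4 * q)).card ≤ 3 * q := by
    have : (Ico 1 N).filter (fun n => q ≤ n ∧ n < 4 * q) ⊆ Ico q (4 * q) := by
      intro n hn
      rw [mem_filter] at hn
      rw [mem_Ico]; exact hn.2
    have := card_le_card this
    rw [Nat.card_Ico] at this
    omega
  have h4 : (((Ico 1 N).filter (fun n => q ≤ n ∧ n < 4 * q)).card : ℝ) ≤ 3 * q := by exact_mod_cast h3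
  calc (((Ico 1 N).filter (fun n => q ≤ n ∧ n < 4 * q)).card : ℝ) * (fG ψ α q * (64 / q))
      ≤ (3 * q) * (fG ψ α q * (64 / q)) := mul_le_mul_of_nonneg_right h4 (by positivity)
    _ = 192 * fG ψ α q := by field_simp; ring

theorem log_small : ∃ n0 : ℕ, 1 ≤ n0 ∧ ∀ n ≥ n0, 32 * ((Nat.log 2 n : ℕ) : ℝ) ^ 2 ≤ (n : ℝ) ^ ((1 : ℝ) / 4) := by
  have h1 := tendsto_pow_const_div_const_pow_of_one_lt 8 (one_lt_two : (1 : ℝ) < 2)
  have h2 : ∀ᶠ m : ℕ in atTop, (m : ℝ) ^ 8 / 2 ^ m < 1 / 32 ^ 4 := h1.eventually (gt_mem_nhds (by norm_num))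
  obtain ⟨m0, hm0⟩ := eventually_atTop.1 h2
  refine ⟨2 ^ m0, Nat.one_le_two_pow, ?_⟩
  intro n hn
  have hn0 : n ≠ 0 := by
    have : 0 < 2 ^ m0 := by positivity
    omega
  set m := Nat.log 2 n with hm
  have hmm : m0 ≤ m := by
    rw [hm]
    exact Nat.le_log_of_pow_le (by norm_num) hn
  have h3 := hm0 m hmm
  have h4 : (2 : ℝ) ^ m ≤ n := by
    have := Nat.pow_log_le_self 2 hn0
    exact_mod_cast this
  have h5 : (32 * (m : ℝ) ^ 2) ^ 4 ≤ n := by
    rw [div_lt_div_iff₀ (by positivity) (by norm_num)] at h3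
    calc (32 * (m : ℝ) ^ 2) ^ 4 = (m : ℝ) ^ 8 * 32 ^ 4 := by ring
      _ ≤ 1 * 2 ^ m := h3.le
      _ ≤ n := by linarith
  have h7 : ∀ y : ℝ, 0 ≤ y → y = (y ^ 4) ^ ((1 : ℝ) / 4) := by
    intro y hy
    have h8 : (y ^ 4 : ℝ) = y ^ ((4 : ℕ) : ℝ) := (Real.rpow_natCast y 4).symm
    rw [h8, ← Real.rpow_mul hy]
    norm_num
  rw [h7 (32 * (m : ℝ) ^ 2) (by positivity)]
  exact Real.rpow_le_rpow (by positivity) h5 (by norm_num)

variable {α}

include hanti hpos in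
theorem pointwise (X : Conv α) (n0 : ℕ) (h1n0 : 1 ≤ n0)
    (hn0 : ∀ n ≥ n0, 32 * ((Nat.log 2 n : ℕ) : ℝ) ^ 2 ≤ (n : ℝ) ^ ((1 : ℝ) / 4)) (hn0' : ∀ n ≥ n0, ψ n < 1)
    (k n : ℕ) (hk : 1 ≤ k) (h1 : 4 * X.Q k ≤ n) (h2 : n < 4 * X.Q (k + 1)) :
    ψ n ^ 2 ≤ (if ψ n * X.Q k < 4 then ψ n ^ 2 else 0) + t1 ψ α n + (n : ℝ) ^ (-(3 : ℝ) / 2)
      + (if n < n0 then ψ n ^ 2 else 0) := by
  have hn := hpos n
  have ht1 := t1_nonneg ψ α hpos n
  have hp1 : 0 ≤ (n : ℝ) ^ (-(3 : ℝ) / 2) := Real.rpow_nonneg (Nat.cast_nonneg _) _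
  have hp2 : 0 ≤ ψ n ^ 2 := sq_nonneg _
  by_cases c1 : ψ n * X.Q k < 4
  · rw [if_pos c1]
    split_ifs <;> linarith
  rw [if_neg c1]
  push Not at c1
  by_cases c2 : n < n0
  · rw [if_pos c2]; linarith
  rw [if_neg c2]
  push Not at c2
  have hnR : (0 : ℝ) < n := by exact_mod_cast (by omega : 0 < n)
  by_cases c3 : (n : ℝ) * ψ n < (n : ℝ) ^ ((1 : ℝ) / 4)
  · have h3 : ψ n ≤ (n : ℝ) ^ (-(3 : ℝ) / 4) := by
      have h4 : (n : ℝ) ^ ((1 : ℝ) / 4) = n * (n : ℝ) ^ (-(3 : ℝ) / 4) := by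
        nth_rewrite 2 [← Real.rpow_one (n : ℝ)]
        rw [← Real.rpow_add hnR]
        norm_num
      rw [h4] at c3
      exact (lt_of_mul_lt_mul_left c3 hnR.le).le
    have h5 : ψ n ^ 2 ≤ (n : ℝ) ^ (-(3 : ℝ) / 2) := by
      calc ψ n ^ 2 ≤ ((n : ℝ) ^ (-(3 : ℝ) / 4)) ^ 2 := pow_le_pow_left₀ hn.le h3 2
        _ = (n : ℝ) ^ (-(3 : ℝ) / 2) := by
            rw [← Real.rpow_natCast, ← Real.rpow_mul hnR.le]
            norm_num
    linarith
  push Not at c3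
  have hcount := count_good X k n hk h1 h2 (ψ n) hn c1 (hn0' n c2) ((hn0 n c2).trans c3)
  have h3 : ψ n ^ 2 ≤ t1 ψ α n := by
    have h4 : ((goodset α n (ψ n)).card : ℝ) * ψ n
        ≤ ∑ q ∈ Ico 1 (n + 1), (if n < 4 * q then fG ψ α q else 0) := by
      rw [← nsmul_eq_mul, ← sum_const, ← sum_filter]
      have h5 : goodset α n (ψ n) ⊆ (Ico 1 (n + 1)).filter (fun q => n < 4 * q) := by
        intro q hq
        rw [mem_goodset] at hq
        rw [mem_filter, mem_Ico]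
        omega
      refine le_trans (sum_le_sum (fun q hq => ?_)) (sum_le_sum_of_subset_of_nonneg h5
        (fun q _ _ => fG_nonneg ψ α hpos q))
      rw [mem_goodset] at hq
      have h6 : ψ n ≤ ψ q := hanti hq.1.2
      unfold fG
      rw [if_pos ⟨hq.1.1, hq.2.2.1.trans_le h6, hq.2.2.2⟩]
      exact h6
    unfold t1
    have h7 : (n : ℝ) * ψ n / 64 * ψ n ≤ ∑ q ∈ Ico 1 (n + 1), (if n < 4 * q then fG ψ α q else 0) :=
      (mul_le_mul_of_nonneg_right hcount hn.le).trans h4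
    have h8 := mul_le_mul_of_nonneg_left h7 (by positivity : 0 ≤ 64 / (n : ℝ))
    have h9 : 64 / (n : ℝ) * ((n : ℝ) * ψ n / 64 * ψ n) = ψ n ^ 2 := by field_simp
    linarith
  linarith

theorem block_sum (X : Conv α) (g : ℕ → ℝ) (K : ℕ) (hK : 1 ≤ K) :
    ∑ n ∈ Ico 4 (4 * X.Q K), g n = ∑ k ∈ Ico 1 K, ∑ n ∈ Ico (4 * X.Q k) (4 * X.Q (k + 1)), g n := by
  induction K, hK using Nat.le_induction with
  | base => rw [X.Q1]; simp
  | succ K hK ih =>
    rw [sum_Ico_succ_top hK, ← ih]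
    have h1 := X.pos K hK
    have h2 := X.mono1 K
    rw [sum_Ico_consecutive g (by omega) (by omega)]

include hanti hpos htend in
theorem dichotomy (X : Conv α) (hs1 : Summable (fG ψ α)) (hs2 : Summable (X.mass ψ)) :
    Summable (fun n => ψ n ^ 2) := by
  obtain ⟨na, hna1, hna⟩ := log_small
  have hev : ∀ᶠ q in atTop, ψ q < 1 := htend.eventually (gt_mem_nhds one_pos)
  obtain ⟨nb, hnb⟩ := eventually_atTop.1 hev
  set n0 := max na nb with hn0
  have hs3 : Summable (fun n : ℕ => (n : ℝ) ^ (-(3 : ℝ) / 2)) := by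
    rw [Real.summable_nat_rpow]; norm_num
  have hm0 := X.mass_nonneg ψ hpos
  have hf0 := fG_nonneg ψ α hpos
  apply summable_of_sum_range_le (c := ∑ n ∈ range 4, ψ n ^ 2 + (544 * ∑' k, X.mass ψ k + 512)
    + 192 * ∑' q, fG ψ α q + ∑' n : ℕ, (n : ℝ) ^ (-(3 : ℝ) / 2) + ∑ n ∈ range n0, ψ n ^ 2)
    (fun n => sq_nonneg _)
  intro N
  have hbig : ∑ n ∈ range N, ψ n ^ 2 ≤ ∑ n ∈ range 4, ψ n ^ 2 + ∑ n ∈ Ico 4 (4 * X.Q (N + 1)), ψ n ^ 2 := by
    have h1 := X.growth N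
    have h2 := X.pos (N + 1) (by omega)
    rw [sum_range_add_sum_Ico _ (by omega : 4 ≤ 4 * X.Q (N + 1))]
    apply sum_le_sum_of_subset_of_nonneg
    · apply range_subset_range.2; omega
    · intro n _ _; exact sq_nonneg _
  refine hbig.trans ?_
  have hpw : ∑ n ∈ Ico 4 (4 * X.Q (N + 1)), ψ n ^ 2
      ≤ ∑ k ∈ Ico 1 (N + 1), ∑ n ∈ Ico (4 * X.Q k) (4 * X.Q (k + 1)), (if ψ n * X.Q k < 4 then ψ n ^ 2 else 0)
        + ∑ n ∈ Ico 4 (4 * X.Q (N + 1)), (t1 ψ α n + (n : ℝ) ^ (-(3 : ℝ) / 2)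
          + (if n < n0 then ψ n ^ 2 else 0)) := by
    rw [block_sum X (fun n => ψ n ^ 2) (N + 1) (by omega),
      block_sum X (fun n => t1 ψ α n + (n : ℝ) ^ (-(3 : ℝ) / 2) + (if n < n0 then ψ n ^ 2 else 0)) (N + 1) (by omega),
      ← sum_add_distrib]
    apply sum_le_sum
    intro k hk
    rw [mem_Ico] at hk
    rw [← sum_add_distrib]
    apply sum_le_sum
    intro n hn
    rw [mem_Ico] at hn
    have := pointwise ψ hanti hpos X n0 (le_max_of_le_left hna1)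
      (fun n hn => hna n (le_trans (le_max_left _ _) hn)) (fun n hn => hnb n (le_trans (le_max_right _ _) hn))
      k n hk.1 hn.1 hn.2
    linarith
  have hA : ∑ k ∈ Ico 1 (N + 1), ∑ n ∈ Ico (4 * X.Q k) (4 * X.Q (k + 1)), (if ψ n * X.Q k < 4 then ψ n ^ 2 else 0)
      ≤ 544 * ∑' k, X.mass ψ k + 512 := by
    have h1 : ∀ k ∈ Ico 1 (N + 1), ∑ n ∈ Ico (4 * X.Q k) (4 * X.Q (k + 1)), (if ψ n * X.Q k < 4 then ψ n ^ 2 else 0)
        ≤ 544 * X.mass ψ k + 128 * (1 / X.Q (k + 1)) := by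
      intro k hk
      rw [mem_Ico] at hk
      exact X.type_two ψ hanti hpos k hk.1
    refine (sum_le_sum h1).trans ?_
    rw [sum_add_distrib, ← mul_sum, ← mul_sum]
    have h2 : ∑ k ∈ Ico 1 (N + 1), X.mass ψ k ≤ ∑' k, X.mass ψ k :=
      hs2.sum_le_tsum _ (fun k _ => hm0 k)
    have h3 : ∑ k ∈ Ico 1 (N + 1), (1 : ℝ) / X.Q (k + 1) ≤ 4 := by
      refine le_trans ?_ (X.sum_inv (N + 2))
      rw [sum_Ico_add' (fun j => (1 : ℝ) / (X.Q j : ℝ)) 1 (N + 1) 1]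
      apply sum_le_sum_of_subset_of_nonneg
      · intro x hx; rw [mem_Ico] at hx ⊢; omega
      · intro x _ _; positivity
    linarith
  have hB : ∑ n ∈ Ico 4 (4 * X.Q (N + 1)), (t1 ψ α n + (n : ℝ) ^ (-(3 : ℝ) / 2) + (if n < n0 then ψ n ^ 2 else 0))
      ≤ 192 * ∑' q, fG ψ α q + ∑' n : ℕ, (n : ℝ) ^ (-(3 : ℝ) / 2) + ∑ n ∈ range n0, ψ n ^ 2 := by
    rw [sum_add_distrib, sum_add_distrib]
    have h1 : ∑ n ∈ Ico 4 (4 * X.Q (N + 1)), t1 ψ α n ≤ 192 * ∑' q, fG ψ α q := by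
      have h2 : ∑ n ∈ Ico 4 (4 * X.Q (N + 1)), t1 ψ α n ≤ ∑ n ∈ Ico 1 (4 * X.Q (N + 1)), t1 ψ α n := by
        apply sum_le_sum_of_subset_of_nonneg
        · intro x hx; rw [mem_Ico] at hx ⊢; omega
        · intro x _ _; exact t1_nonneg ψ α hpos x
      refine h2.trans ((t1_sum ψ α hpos _).trans ?_)
      apply mul_le_mul_of_nonneg_left _ (by norm_num)
      exact hs1.sum_le_tsum _ (fun k _ => hf0 k)
    have h2 : ∑ n ∈ Ico 4 (4 * X.Q (N + 1)), (n : ℝ) ^ (-(3 : ℝ) / 2) ≤ ∑' n : ℕ, (n : ℝ) ^ (-(3 : ℝ) / 2) :=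
      hs3.sum_le_tsum _ (fun k _ => Real.rpow_nonneg (Nat.cast_nonneg _) _)
    have h3 : ∑ n ∈ Ico 4 (4 * X.Q (N + 1)), (if n < n0 then ψ n ^ 2 else 0) ≤ ∑ n ∈ range n0, ψ n ^ 2 := by
      rw [← sum_filter]
      apply sum_le_sum_of_subset_of_nonneg
      · intro x hx; rw [mem_filter] at hx; rw [mem_range]; exact hx.2
      · intro x _ _; exact sq_nonneg _
    linarith
  linarith

include hanti hpos htend in
theorem full_irrational (hα : Irrational α) (hdiv : ¬ Summable (fun n => ψ n ^ 2)) :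
    ∀ᵐ x, x ∈ WW ψ (α : UnitAddCircle) := by
  by_cases hs1 : Summable (fG ψ α)
  · by_cases hs2 : Summable ((conv α hα).mass ψ)
    · exact absurd (dichotomy ψ hanti hpos htend (conv α hα) hs1 hs2) hdiv
    · exact zero_one ψ _ hanti (fun q => (hpos q).le) htend (1 / 34) (by norm_num)
        ((conv α hα).case_two ψ hanti hpos hs2)
  · exact zero_one ψ _ hanti (fun q => (hpos q).le) htend _ (by positivity)
      (case_one ψ α hpos htend hs1)

end

end Pool.Agent.Helper74.KV
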