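import Mathlib
import Pool.Agent.Helper74.KV.K11

set_option autoImplicit false

namespace Pool.Agent.Helper74.KV

open Finset MeasureTheory Filter Topology

/-- radii used for a rational base point -/
noncomputable def rr (ψ : ℕ → ℝ) (b r : ℕ) : ℝ := min (ψ (r * b)) (1 / b) / 2

section
variable (ψ : ℕ → ℝ) (hanti : Antitone ψ) (hpos : ∀ q, 0 < ψ q) (htend : Tendsto ψ atTop (𝓝 0))

include hpos in
theorem rr_nonneg (b r : ℕ) : 0 ≤ rr ψ b r := by
  unfold rr
  have := hpos (r * b)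
  have h2 : 0 ≤ 1 / (b : ℝ) := by positivity
  have : 0 ≤ min (ψ (r * b)) (1 / (b : ℝ)) := le_min this.le h2
  linarith

include hanti in
theorem rr_anti (b r : ℕ) : rr ψ b (r + 1) ≤ rr ψ b r := by
  unfold rr
  have : ψ ((r + 1) * b) ≤ ψ (r * b) := hanti (Nat.mul_le_mul_right _ (by omega))
  have := min_le_min_right (1 / (b : ℝ)) this
  linarith

theorem rr_le1 (b r : ℕ) (hb : 0 < b) : rr ψ b r * (2 * b) ≤ 1 := by
  have hQ : (0 : ℝ) < b := by exact_mod_cast hb
  unfold rr
  have := min_le_right (ψ (r * b)) (1 / (b : ℝ))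
  have h2 := mul_le_mul_of_nonneg_right this hQ.le
  have h3 : 1 / (b : ℝ) * b = 1 := by field_simp
  linarith

include hpos in
theorem rr_lt (b r : ℕ) : rr ψ b r < ψ (r * b) := by
  unfold rr
  have := hpos (r * b)
  have h1 := min_le_left (ψ (r * b)) (1 / (b : ℝ))
  linarith

include hanti hpos htend in
theorem rr_not_summable (b : ℕ) (hb : 0 < b) (hdiv : ¬ Summable (fun n => ψ n ^ 2)) :
    ¬ Summable (rr ψ b) := by
  intro hs
  apply hdiv
  have hbR : (0 : ℝ) < b := by exact_mod_cast hb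
  have hmul : Tendsto (fun r : ℕ => r * b) atTop atTop := by
    apply tendsto_atTop_mono (f := fun r : ℕ => r) _ tendsto_id
    intro r
    exact Nat.le_mul_of_pos_right r hb
  have hev : ∀ᶠ r : ℕ in atTop, ψ (r * b) < 1 / b :=
    (htend.comp hmul).eventually (gt_mem_nhds (by positivity))
  have h1 : Summable (fun r => ψ (r * b)) := by
    have h2 : Summable (fun r => 2 * rr ψ b r) := hs.mul_left 2
    refine Summable.of_norm_bounded_eventually_nat h2 ?_
    filter_upwards [hev] with r hr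
    rw [Real.norm_of_nonneg (hpos _).le]
    unfold rr
    rw [min_eq_left hr.le]
    linarith
  have h3 : Summable (fun n => ψ (n / b * b)) := by
    apply summable_of_sum_range_le (c := ∑ n ∈ range b, ψ (n / b * b) + b * ∑' r, ψ (r * b))
      (fun n => (hpos _).le)
    intro n
    have h4 : ∑ m ∈ range n, ψ (m / b * b) ≤ ∑ m ∈ range ((n + 1) * b), ψ (m / b * b) :=
      sum_le_sum_of_subset_of_nonneg (range_subset_range.2 (by nlinarith)) (fun _ _ _ => (hpos _).le)
    refine h4.trans ?_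
    rw [← sum_range_add_sum_Ico _ (Nat.le_mul_of_pos_left b (by omega : 0 < n + 1)),
      Conv.sum_div_block b hb (fun r => ψ (r * b)) n]
    have h5 : ∑ r ∈ Ico 1 (n + 1), ψ (r * b) ≤ ∑' r, ψ (r * b) :=
      h1.sum_le_tsum _ (fun _ _ => (hpos _).le)
    have := mul_le_mul_of_nonneg_left h5 hbR.le
    linarith
  have hev2 : ∀ᶠ n in atTop, ψ n < 1 := htend.eventually (gt_mem_nhds one_pos)
  refine Summable.of_norm_bounded_eventually_nat h3 ?_
  filter_upwards [hev2] with n hn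
  rw [Real.norm_of_nonneg (sq_nonneg _)]
  have := hpos n
  have h5 : ψ n ≤ ψ (n / b * b) := hanti (Nat.div_mul_le_self n b)
  nlinarith

include hanti hpos htend in
theorem case_rat (b : ℕ) (hb : 0 < b) (a : UnitAddCircle) (hba : b • a = 0)
    (hdiv : ¬ Summable (fun n => ψ n ^ 2)) (K : ℕ) : 1 / 40 ≤ volume.real (UU ψ a K) := by
  have hns := rr_not_summable ψ hanti hpos htend b hb hdiv
  have hr0 := rr_nonneg ψ hpos b
  set A := ∑ r ∈ Ico 1 (K + 1), rr ψ b r with hA
  have hA0 : 0 ≤ A := sum_nonneg (fun r _ => hr0 r)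
  obtain ⟨R, hKR, hR⟩ : ∃ R, K ≤ R ∧ max 1 (2 * A) ≤ ∑ r ∈ Ico (K + 1) (R + 1), rr ψ b r := by
    by_contra hcon
    push Not at hcon
    apply hns
    apply summable_of_sum_range_le (c := ∑ k ∈ range (K + 1), rr ψ b k + max 1 (2 * A)) hr0
    intro n
    have h0 : (0 : ℝ) ≤ max 1 (2 * A) := le_max_of_le_left zero_le_one
    rcases le_total n (K + 1) with h | h
    · have h1 : ∑ k ∈ range n, rr ψ b k ≤ ∑ k ∈ range (K + 1), rr ψ b k :=
        sum_le_sum_of_subset_of_nonneg (range_subset_range.2 h) (fun k _ _ => hr0 k)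
      linarith
    · rw [← sum_range_add_sum_Ico _ h]
      obtain ⟨m, rfl⟩ : ∃ m, n = m + 1 := ⟨n - 1, by omega⟩
      have := (hcon m (by omega)).le
      linarith
  have hR1 : 1 ≤ ∑ r ∈ Ico (K + 1) (R + 1), rr ψ b r := (le_max_left _ _).trans hR
  have hR2 : 2 * A ≤ ∑ r ∈ Ico (K + 1) (R + 1), rr ψ b r := (le_max_right _ _).trans hR
  have hw := sum_phi_weight (rr ψ b) hr0 (fun r _ => rr_anti ψ hanti b r) R
  rw [← sum_Ico_consecutive _ (by omega : 1 ≤ K + 1) (by omega : K + 1 ≤ R + 1),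
    ← sum_Ico_consecutive _ (by omega : 1 ≤ K + 1) (by omega : K + 1 ≤ R + 1)] at hw
  have hw2 : ∑ r ∈ Ico 1 (K + 1), rr ψ b r * ((Nat.totient r : ℝ) / r) ≤ A := by
    rw [hA]
    apply sum_le_sum
    intro r hr
    rw [mem_Ico] at hr
    have hrR : (0 : ℝ) < r := by exact_mod_cast hr.1
    have h1 : (Nat.totient r : ℝ) / r ≤ 1 := by
      rw [div_le_one hrR]
      exact_mod_cast Nat.totient_le r
    calc rr ψ b r * ((Nat.totient r : ℝ) / r) ≤ rr ψ b r * 1 := mul_le_mul_of_nonneg_left h1 (hr0 r)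
      _ = rr ψ b r := mul_one _
  have hl := levels {0} (fun _ => Ico (K + 1) (R + 1)) (fun _ => b) (fun _ => rr ψ b) (1 / 4) 0 (by norm_num)
    le_rfl
    (fun k _ => hb)
    (fun k _ r hr => by rw [mem_Ico] at hr; omega)
    (fun k _ r _ => hr0 r)
    (fun k _ r _ => rr_le1 ψ b r hb)
    (by rw [sum_singleton]; exact hR1)
    (by rw [sum_singleton, sum_singleton]; linarith)
    (by
      have : ({0} : Finset ℕ).filter (fun k' => 0 < k') = ∅ := by
        ext x; simp only [mem_filter, mem_singleton, notMem_empty, iff_false]; omega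
      rw [sum_singleton, this]; simp)
  have hsub : (⋃ k ∈ ({0} : Finset ℕ), ⋃ r ∈ Ico (K + 1) (R + 1), ⋃ s ∈ NN r b,
      Metric.closedBall (pt (r * b) s) (rr ψ b r / ((r * b : ℕ) : ℝ)))
      ⊆ UU ψ a K := by
    intro x hx
    simp only [Set.mem_iUnion, exists_prop, mem_Ico] at hx
    obtain ⟨k, hk, r, hr, s, _, hx⟩ := hx
    have hq : 0 < r * b := Nat.mul_pos (by omega) hb
    refine ⟨r * b, ?_, hq, ?_, ?_⟩
    · have h3 := Nat.le_mul_of_pos_right r hb
      omega
    · rw [mul_nsmul', hba, smul_zero, norm_zero]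
      exact hpos _
    · exact (ball_approx _ _ hq _ x hx).trans_lt (rr_lt ψ hpos b r)
  have hfin := hl.trans (measureReal_mono hsub)
  norm_num at hfin ⊢
  exact hfin

include hanti hpos htend in
theorem full_rational (b : ℕ) (hb : 0 < b) (a : UnitAddCircle) (hba : b • a = 0)
    (hdiv : ¬ Summable (fun n => ψ n ^ 2)) : ∀ᵐ x, x ∈ WW ψ a :=
  zero_one ψ _ hanti (fun q => (hpos q).le) htend (1 / 40) (by norm_num)
    (case_rat ψ hanti hpos htend b hb a hba hdiv)

end

/-- Dirichlet: a radius bounded below catches every point. -/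
theorem all_of_bdd (ψ : ℕ → ℝ) (c : ℝ) (hc : 0 < c) (h : ∀ q, c ≤ ψ q) (a x : UnitAddCircle) :
    x ∈ WW ψ a := by
  unfold WW
  rw [Set.mem_ofPred_eq]
  apply Set.infinite_of_forall_exists_gt
  intro K
  obtain ⟨n', hn'⟩ := exists_nat_gt (1 / c)
  have hn'0 : 0 < n' := by
    have : (0 : ℝ) < n' := lt_trans (by positivity) hn'
    exact_mod_cast this
  have hn1 : (1 : ℝ) / (n' + 1) < c := by
    rw [div_lt_comm₀ (by positivity) hc]; linarith
  obtain ⟨n, hn⟩ := exists_nat_gt ((n' : ℝ) / c)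
  have hn0 : 0 < n := by
    have : (0 : ℝ) < n := lt_of_le_of_lt (by positivity) hn
    exact_mod_cast this
  have hn2 : (n' : ℝ) * (1 / (n + 1)) < c := by
    rw [mul_one_div, div_lt_comm₀ (by positivity) hc]; linarith
  obtain ⟨j, hj, hj2⟩ := AddCircle.exists_norm_nsmul_le (T := 1) ((K + 1) • a) hn0
  obtain ⟨i, hi, hi2⟩ := AddCircle.exists_norm_nsmul_le (T := 1) ((j * (K + 1)) • x) hn'0
  rw [Set.mem_Icc] at hj hi
  refine ⟨i * (j * (K + 1)), ⟨?_, ?_, ?_⟩, ?_⟩
  · exact Nat.mul_pos (by omega) (Nat.mul_pos (by omega) (by omega))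
  · refine lt_of_lt_of_le ?_ (h _)
    have e : (i * (j * (K + 1))) • a = i • (j • ((K + 1) • a)) := by
      rw [mul_nsmul', mul_nsmul']
    rw [e]
    refine norm_nsmul_le.trans_lt ?_
    have h1 : (i : ℝ) * ‖j • ((K + 1) • a)‖ ≤ n' * (1 / (n + 1)) := by
      have h2 : (i : ℝ) ≤ n' := by exact_mod_cast hi.2
      have h3 : ‖j • ((K + 1) • a)‖ ≤ 1 / (n + 1) := by
        have := hj2
        push_cast at this
        exact this
      exact mul_le_mul h2 h3 (norm_nonneg _) (by positivity)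
    linarith
  · refine lt_of_lt_of_le ?_ (h _)
    rw [mul_nsmul']
    have h3 : ‖i • ((j * (K + 1)) • x)‖ ≤ 1 / (n' + 1) := by
      have := hi2
      push_cast at this
      exact this
    linarith
  · have h1 : K + 1 ≤ j * (K + 1) := Nat.le_mul_of_pos_left _ (by omega)
    have h2 : j * (K + 1) ≤ i * (j * (K + 1)) := Nat.le_mul_of_pos_left _ (by omega)
    omega

theorem circle_all (ψ : ℕ → ℝ) (hpos : ∀ q, 0 < ψ q) (hmon : Monotone ψ ∨ Antitone ψ)
    (hdiv : ¬ Summable (fun n => ψ n ^ 2)) (α : ℝ) : ∀ᵐ x, x ∈ WW ψ (α : UnitAddCircle) := by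
  rcases hmon with hmon | hanti
  · exact Eventually.of_forall (fun x => all_of_bdd ψ (ψ 0) (hpos 0) (fun q => hmon (Nat.zero_le q)) _ x)
  by_cases hb : ∃ c, 0 < c ∧ ∀ q, c ≤ ψ q
  · obtain ⟨c, hc, h⟩ := hb
    exact Eventually.of_forall (fun x => all_of_bdd ψ c hc h _ x)
  push Not at hb
  have htend : Tendsto ψ atTop (𝓝 0) := by
    rw [Metric.tendsto_atTop]
    intro ε hε
    obtain ⟨N, hN⟩ := hb ε hε
    refine ⟨N, fun n hn => ?_⟩
    rw [Real.dist_eq, sub_zero, abs_of_pos (hpos n)]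
    exact (hanti hn).trans_lt hN
  by_cases hα : Irrational α
  · exact full_irrational ψ hanti hpos htend hα hdiv
  · unfold Irrational at hα
    push Not at hα
    obtain ⟨q, rfl⟩ := hα
    refine full_rational ψ hanti hpos htend q.den q.den_pos _ ?_ hdiv
    rw [← AddCircle.coe_nsmul, nsmul_eq_mul]
    have : (q.den : ℝ) * (q : ℝ) = ((q.num : ℤ) : ℝ) := by
      have := Rat.den_mul_eq_num q
      exact_mod_cast this
    rw [this]
    exact coe_int _

end Pool.Agent.Helper74.KV
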